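import Pool.Agent.W2helper63.LL.Fin4
import Pool.Agent.W2helper7.LL.KLA
import Pool.Agent.W2helper7.LL.FEX
import Pool.Agent.W2helper7.LL.VAL
import Pool.Agent.W2helper74.LL.KLB
import Pool.Agent.W2helper76.LL.KLC
import Pool.Agent.W2helper76.LL.Gen3
import Pool.Agent.W2helper76.LL.Gen12
import Pool.Agent.W2helper76.LL.Adm
import Pool.Agent.W2helper44.LL.FR
import Pool.Agent.W2helper44.LL.DD
import Pool.Agent.W2helper10.LL.Triv
import Pool.Agent.W2helper46.LL.CN
import Pool.Agent.W2helper46.LL.INV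
import Pool.Agent.W2helper23.LL.Rel
import Pool.Agent.W2helper2.LL.Opn
import Pool.Agent.W2helper59.LL.Mod
import Pool.Agent.W2helper75.LL.Emb
import Pool.Agent.W2helper12.LL.CT

set_option autoImplicit false

namespace Pool.Agent.W2helper63.LL

theorem kl : S_KL := W2helper76.LL.klc W2helper7.LL.kla W2helper74.LL.klb

theorem main1 : Main :=
  fin kl FR.fri FR.frv DD.dd W2helper10.LL.triv W2helper7.LL.fex W2helper46.LL.cn
    W2helper46.LL.inv W2helper12.LL.ct W2helper7.LL.val W2helper23.LL.rel W2helper2.LL.opn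
    W2helper76.LL.gen1 W2helper76.LL.gen2 W2helper76.LL.gen3 W2helper59.LL.mod W2helper75.LL.emb

theorem main2_of (bj : S_BJ) : Main2 :=
  fin2 kl FR.fri FR.frv DD.dd W2helper10.LL.triv W2helper7.LL.fex W2helper46.LL.cn
    W2helper46.LL.inv W2helper12.LL.ct W2helper7.LL.val W2helper23.LL.rel W2helper2.LL.opn
    W2helper76.LL.gen1 W2helper76.LL.gen2 W2helper76.LL.gen3 W2helper59.LL.mod W2helper75.LL.emb
    bj W2helper76.LL.Adm.adm


end Pool.Agent.W2helper63.LL
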