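import Mathlib

/-!
# Automorphic representations of `GL₂` over `K = F₂(T)` and their global liftings

All definitions of the theorem `NoLocalLifting`. The places of `K = F₂(T)` are the finite ones
(`Pl`, the nonzero prime ideals of `F₂[T]`) and the infinite one. `GA = GL₂(𝔸_K)`,
`GV v = GL₂(K_v)`, `GInf = GL₂(K_∞)`, `K_∞ = F₂((1/T))`.
-/

set_option autoImplicit false

noncomputable section

namespace Pool.Agent.W2helper63.LL

/-- irreducible smooth complex representations of a topological group `G` -/
structure Irr (G : Type) [Group G] [TopologicalSpace G] where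
  V : Type
  [acg : AddCommGroup V]
  [mod : Module ℂ V]
  ρ : Representation ℂ G V
  smooth : ∀ v : V, ∃ U : Subgroup G, IsOpen (U : Set G) ∧ ∀ g ∈ U, ρ g v = v
  irred : Nontrivial V ∧
    ∀ W : Submodule ℂ V, (∀ g : G, ∀ v ∈ W, ρ g v ∈ W) → W = ⊥ ∨ W = ⊤

attribute [instance] Irr.acg Irr.mod

end Pool.Agent.W2helper63.LL

namespace Pool.Agent.W2helper63.LL.P

open IsDedekindDomain Polynomial Matrix
open scoped Classical

/-! ## Representations and spaces of functions -/

section generalities

variable {G H : Type} [Group G] [TopologicalSpace G] [Group H] [TopologicalSpace H]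

/-- the action of `g` on the vector `x` of the representation `π` -/
def act (π : Irr G) (g : G) (x : π.V) : π.V := π.ρ g x

/-- `π` and `π'` are isomorphic -/
def Iso (π π' : Irr G) : Prop :=
  ∃ e : π.V → π'.V, IsLinearMap ℂ e ∧ Function.Bijective e ∧
    ∀ g x, e (act π g x) = act π' g (e x)

/-- right translation: `(tr g φ)(x) = φ(x g)` -/
def tr (g : G) (φ : G → ℂ) : G → ℂ := fun x => φ (x * g)

/-- `φ` is invariant under right translation by an open subgroup -/
def RSmooth (φ : G → ℂ) : Prop :=
  ∃ U : Subgroup G, IsOpen (U : Set G) ∧ ∀ u ∈ U, tr u φ = φ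

/-- `π` is isomorphic to a subquotient of the space of the functions with property `X`: there are
a space `W` of such functions, stable under right translation, and a linear map `q` which maps `W`
onto the space of `π` and is compatible with the actions of `G` on `W` and on `π`. -/
def Subquotient (π : Irr G) (X : (G → ℂ) → Prop) : Prop :=
  ∃ (W : Submodule ℂ (G → ℂ)) (q : (G → ℂ) → π.V), IsLinearMap ℂ q ∧
    (∀ φ ∈ W, X φ ∧ ∀ g, tr g φ ∈ W ∧ q (tr g φ) = act π g (q φ)) ∧
    ∀ x, ∃ φ ∈ W, q φ = x

/-- `π` is isomorphic to a subrepresentation of the space of the functions with property `X` -/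
def Subrep (π : Irr G) (X : (G → ℂ) → Prop) : Prop :=
  ∃ j : π.V → (G → ℂ), IsLinearMap ℂ j ∧ Function.Injective j ∧
    ∀ x, X (j x) ∧ ∀ g, j (act π g x) = tr g (j x)

/-- For the homomorphism `i : H → G`, the space spanned by the translates of `φ` under `i(H)` is
an admissible representation of `H`: for every open subgroup `U` of `H` its `U`-fixed vectors lie
in a finite-dimensional space. -/
def Admissible (i : H → G) (φ : G → ℂ) : Prop :=
  ∀ U : Subgroup H, IsOpen (U : Set H) → ∃ B : Finset (G → ℂ),
    ∀ ψ ∈ Submodule.span ℂ (Set.range fun h => tr (i h) φ), (∀ h ∈ U, tr (i h) ψ = ψ) →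
      ψ ∈ Submodule.span ℂ (B : Set (G → ℂ))

/-- Components. Here `G = GL₂(𝔸_K)`, `H = GL₂(K_v)`, `p` is the projection and `A g` says that `g`
is `1` at all places different from `v`, so that `A` defines the subgroup `GL₂(K_v)` of
`GL₂(𝔸_K)`. `σ` is the component of `π` at `v` if it embeds into the restriction of `π` to this
subgroup. -/
def Comp (A : G → Prop) (p : G → H) (π : Irr G) (σ : Irr H) : Prop :=
  ∃ j : σ.V → π.V, IsLinearMap ℂ j ∧ (∃ x, j x ≠ 0) ∧
    ∀ g, A g → ∀ x, j (act σ (p g) x) = act π g (j x)

/-- `π` has a nonzero vector fixed by the elements `g` with `A g` and `I (p g)` -/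
def Fixed (A : G → Prop) (p : G → H) (I : H → Prop) (π : Irr G) : Prop :=
  ∃ x : π.V, x ≠ 0 ∧ ∀ g, A g → I (p g) → act π g x = x

end generalities

/-! ## Groups and adeles -/

section rings

variable {A B : Type} [CommRing A] [CommRing B]

/-- the homomorphism `GL₂(A) → GL₂(B)` defined by `f : A → B` -/
def mapGL (f : A →+* B) (g : GL (Fin 2) A) : GL (Fin 2) B := GeneralLinearGroup.map f g

/-- the homomorphism `Aˣ → Bˣ` defined by `f : A → B` -/
def mapU (f : A →+* B) (u : Aˣ) : Bˣ := Units.map f u

theorem bor_aux (a : Aˣ) (x : A) (d : Aˣ) : IsUnit (!![(a : A), x; 0, (d : A)]).det := by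
  rw [Matrix.det_fin_two_of, mul_zero, sub_zero]
  exact a.isUnit.mul d.isUnit

/-- the upper triangular matrix `(a x; 0 d)` -/
def bor (a : Aˣ) (x : A) (d : Aˣ) : GL (Fin 2) A :=
  GeneralLinearGroup.mk'' !![(a : A), x; 0, (d : A)] (bor_aux a x d)

end rings

/-- the matrices in `GL₂(O)`, `O` the valuation ring of `L` -/
def Integral {L : Type} [Field L] [Valued L (WithZero (Multiplicative ℤ))]
    (g : GL (Fin 2) L) : Prop :=
  ∀ i j, Valued.v (g.1 i j) ≤ 1 ∧ Valued.v (g⁻¹.1 i j) ≤ 1

/-- the ring `R = F₂[T]` -/
def R : Type := Polynomial (ZMod 2)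

instance : CommRing R := (inferInstance : CommRing (Polynomial (ZMod 2)))

instance : IsDedekindDomain R := (inferInstance : IsDedekindDomain (Polynomial (ZMod 2)))

/-- the field `K = F₂(T)` -/
def K : Type := RatFunc (ZMod 2)

instance : Field K := RatFunc.instField (ZMod 2)

instance : Algebra R K := (inferInstance : Algebra (Polynomial (ZMod 2)) (RatFunc (ZMod 2)))

instance : IsFractionRing R K :=
  (inferInstance : IsFractionRing (Polynomial (ZMod 2)) (RatFunc (ZMod 2)))

/-- the finite places of `K` -/
def Pl : Type := HeightOneSpectrum R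

/-- finite adeles of `K` -/
def Af : Type := FiniteAdeleRing R K

instance : CommRing Af := (inferInstance : CommRing (FiniteAdeleRing R K))

instance : TopologicalSpace Af := (inferInstance : TopologicalSpace (FiniteAdeleRing R K))

instance : Algebra K Af := (inferInstance : Algebra K (FiniteAdeleRing R K))

/-- the completion of `K` at a finite place -/
def Kv (v : Pl) : Type := HeightOneSpectrum.adicCompletion K v

instance (v : Pl) : Field (Kv v) := HeightOneSpectrum.adicCompletion.instField K v

instance (v : Pl) : Valued (Kv v) (WithZero (Multiplicative ℤ)) :=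
  HeightOneSpectrum.adicCompletion.instValuedWithZeroMultiplicativeInt K v

/-- the completion `F₂((1/T))` of `K` at the infinite place -/
def Ki : Type := RatFunc.CompletionAtInfty (ZMod 2)

instance : Field Ki := RatFunc.CompletionAtInfty.instField (ZMod 2)

instance : Valued Ki (WithZero (Multiplicative ℤ)) :=
  RatFunc.CompletionAtInfty.instValuedWithZeroMultiplicativeInt (ZMod 2)

instance : Algebra K Ki := RatFunc.CompletionAtInfty.instAlgebra (ZMod 2)

/-- evaluation of a finite adele at a finite place -/
def ev (v : Pl) : Af →+* Kv v :=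
  RestrictedProduct.evalRingHom (fun v => HeightOneSpectrum.adicCompletion K v) v

/-- the adeles of `K` -/
def Adele : Type := Af × Ki

instance : AddCommGroup Adele := (inferInstance : AddCommGroup (Af × Ki))

/-- the ideles of `K` -/
def Idele : Type := Afˣ × Kiˣ

instance : Group Idele := (inferInstance : Group (Afˣ × Kiˣ))

instance : TopologicalSpace Idele := (inferInstance : TopologicalSpace (Afˣ × Kiˣ))

/-- `GL₂(K)` -/
def GK : Type := GL (Fin 2) K

/-- `GL₂` of the finite adeles -/
def GFin : Type := GL (Fin 2) Af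

instance : Group GFin := (inferInstance : Group (GL (Fin 2) Af))

instance : TopologicalSpace GFin := (inferInstance : TopologicalSpace (GL (Fin 2) Af))

/-- `GL₂(K_∞)` -/
def GInf : Type := GL (Fin 2) Ki

instance : Group GInf := (inferInstance : Group (GL (Fin 2) Ki))

instance : TopologicalSpace GInf := (inferInstance : TopologicalSpace (GL (Fin 2) Ki))

/-- `GL₂(K_v)` -/
def GV (v : Pl) : Type := GL (Fin 2) (Kv v)

instance (v : Pl) : Group (GV v) := (inferInstance : Group (GL (Fin 2) (Kv v)))

instance (v : Pl) : TopologicalSpace (GV v) :=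
  (inferInstance : TopologicalSpace (GL (Fin 2) (Kv v)))

/-- `GL₂(𝔸_K) = GL₂(𝔸_f) × GL₂(K_∞)` -/
def GA : Type := GFin × GInf

instance : Group GA := (inferInstance : Group (GFin × GInf))

instance : TopologicalSpace GA := (inferInstance : TopologicalSpace (GFin × GInf))

/-- diagonal embedding of `GL₂(K)` -/
def dg (γ : GK) : GA := (mapGL (algebraMap K Af) γ, mapGL (algebraMap K Ki) γ)

/-- the component at a finite place -/
def pr (v : Pl) (g : GA) : GV v := mapGL (ev v) g.1

/-- the component at the infinite place -/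
def prInf (g : GA) : GInf := g.2

/-- the embedding of `GL₂(K_∞)` -/
def ri (h : GInf) : GA := (1, h)

/-- `g` is `1` at all places except possibly at the finite place `v` -/
def At (v : Pl) (g : GA) : Prop := prInf g = 1 ∧ ∀ w : Pl, w ≠ v → pr w g = 1

/-- `g` is `1` at all finite places -/
def AtInf (g : GA) : Prop := g.1 = 1

/-- the element `(a x; 0 d)` of `B(𝔸_K)` -/
def borA (a : Idele) (x : Adele) (d : Idele) : GA := (bor a.1 x.1 d.1, bor a.2 x.2 d.2)

/-- diagonal embedding of `Kˣ` in the ideles -/
def dgi (κ : Kˣ) : Idele := (mapU (algebraMap K Af) κ, mapU (algebraMap K Ki) κ)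

/-- the idele with component `T` at the infinite place and `1` elsewhere; its norm is `2` -/
def Tinf : Idele := (1, mapU (algebraMap K Ki) (Units.mk0 RatFunc.X RatFunc.X_ne_zero))

/-! ## Automorphic forms and representations -/

/-- Automorphic forms on `GL₂(K)\GL₂(𝔸_K)` over the function field `K` (Borel-Jacquet, 5.8, 5.9):
left invariant under `GL₂(K)`, right invariant under an open subgroup, and the space spanned by
the right translates under `GL₂(K_∞)` is admissible. -/
def AutForm (φ : GA → ℂ) : Prop :=
  (∀ γ g, φ (dg γ * g) = φ g) ∧ RSmooth φ ∧ Admissible ri φ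

/-- The constant term of `φ` along the upper triangular unipotent group vanishes: for each `g`
the function `x ↦ φ((1 x; 0 1) g)` on the compact group `𝔸_K/K` has integral `0`. For a locally
constant function this means that some finite average of its translates vanishes identically
(take representatives of `𝔸_K/(K+H)`, `H` an open subgroup of periods). -/
def ConstTermZero (φ : GA → ℂ) : Prop :=
  ∀ g : GA, ∃ S : Multiset Adele, S ≠ 0 ∧
    ∀ x : Adele, (S.map fun s => φ (borA 1 (x + s) 1 * g)).sum = 0

/-- Cusp forms on `GL₂(K)\GL₂(𝔸_K)` with central character `ω`: functions that are left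
invariant under `GL₂(K)`, right invariant under an open subgroup, transform by `ω` under the
centre and have vanishing constant terms. -/
def CuspForm (ω : Idele → ℂ) (φ : GA → ℂ) : Prop :=
  (∀ γ g, φ (dg γ * g) = φ g) ∧ RSmooth φ ∧
    (∀ z g, φ (borA z 0 z * g) = ω z * φ g) ∧ ConstTermZero φ

/-- Hecke characters of `K`: homomorphisms from the ideles to `ℂˣ`, continuous (i.e. trivial on an
open subgroup) and trivial on `Kˣ`; not necessarily unitary -/
def Hecke (μ : Idele → ℂ) : Prop :=
  μ 1 = 1 ∧ (∀ a b, μ (a * b) = μ a * μ b) ∧ (∀ κ, μ (dgi κ) = 1) ∧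
    ∃ U : Subgroup Idele, IsOpen (U : Set Idele) ∧ ∀ u ∈ U, μ u = 1

/-- The functions in the induced representation `Ind_{B(𝔸)}^{G(𝔸)}(ν₁ ⊗ ν₂)` (not normalized):
right smooth functions with `φ((a x; 0 d) g) = ν₁(a) ν₂(d) φ(g)`. -/
def PS (ν₁ ν₂ : Idele → ℂ) (φ : GA → ℂ) : Prop :=
  RSmooth φ ∧ ∀ a x d g, φ (borA a x d * g) = ν₁ a * ν₂ d * φ g

/-- Automorphic representations of `GL₂(𝔸_K)`: irreducible subquotients of the space of
automorphic forms -/
def Automorphic (π : Irr GA) : Prop := Subquotient π AutForm

/-- cuspidal automorphic representations of `GL₂(𝔸_K)` -/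
def Cuspidal (π : Irr GA) : Prop := ∃ ω : Idele → ℂ, Subquotient π (CuspForm ω)

/-- Isobaric representations of `GL₂(𝔸_K)`: the cuspidal ones, and the isobaric sums
`μ₁ ⊞ μ₂` of two Hecke characters, ordered such that `|μ₁/μ₂| = ‖·‖^s` with `s ≥ 0`. The latter
is the unique irreducible subrepresentation of the normalized induced representation
`I(μ₂, μ₁)`, i.e. of `PS ν₁ ν₂` with `ν₁ = μ₂ ‖·‖^(1/2)`, `ν₂ = μ₁ ‖·‖^(-1/2)`, where
`|ν₂/ν₁| = ‖·‖^(s-1)`. As `‖Tinf‖ = 2`, the condition `s ≥ 0` says `|ν₂/ν₁|(Tinf) ≥ 1/2`. -/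
def Isobaric (P : Irr GA) : Prop :=
  Cuspidal P ∨ ∃ ν₁ ν₂ : Idele → ℂ, Hecke ν₁ ∧ Hecke ν₂ ∧
    ‖ν₁ Tinf‖ ≤ 2 * ‖ν₂ Tinf‖ ∧ Subrep P (PS ν₁ ν₂)

/-! ## Local components and global liftings -/

/-- `σ` is the component of `π` at the infinite place -/
def CompInf (π : Irr GA) (σ : Irr GInf) : Prop := Comp AtInf prInf π σ

/-- `P` is a global lifting of `π` for the standard representation of the dual group `GL₂(ℂ)`:
it is isobaric and automorphic and has the same component as `π` at every place where `π` is
unramified, i.e. has a nonzero vector fixed by `GL₂(O_v)`. -/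
def Lifting (π P : Irr GA) : Prop :=
  Automorphic P ∧ Isobaric P ∧
    (∀ v : Pl, Fixed (At v) (pr v) Integral π →
      ∀ τ : Irr (GV v), Comp (At v) (pr v) π τ → Comp (At v) (pr v) P τ) ∧
    (Fixed AtInf prInf Integral π → ∀ τ : Irr GInf, CompInf π τ → CompInf P τ)

end Pool.Agent.W2helper63.LL.P
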