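import Pool.Agent.W2helper63.LL.Fin4
import Pool.Agent.W2helper63.LL.Pres

/-!
# From `Main2` to the compact statement
-/

set_option autoImplicit false

noncomputable section

namespace Pool.Agent.W2helper63.LL.Conv

open IsDedekindDomain Polynomial Matrix
open scoped Classical

section gen

variable {G : Type} [Group G] [TopologicalSpace G]

theorem subq (π : Irr G) (X : (G → ℂ) → Prop)
    (h : ∃ (W : Submodule ℂ (G → ℂ)) (q : W →ₗ[ℂ] π.V), (∀ φ ∈ W, X φ) ∧ Stable rt W ∧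
    Function.Surjective q ∧ ∀ (g : G) (φ ψ : W), (ψ : G → ℂ) = rt g φ → q ψ = π.ρ g (q φ)) :
    P.Subquotient π X := by
  obtain ⟨W, q, h1, h2, h3, h4⟩ := h
  obtain ⟨q', hq'⟩ := q.exists_extend
  have e : ∀ (φ : G → ℂ) (h : φ ∈ W), q' φ = q ⟨φ, h⟩ := fun φ h => by
    rw [← hq']; rfl
  refine ⟨W, q', q'.isLinear, fun φ hφ => ⟨h1 φ hφ, fun g => ⟨h2 g φ hφ, ?_⟩⟩, fun x => ?_⟩
  · have := h4 g ⟨φ, hφ⟩ ⟨rt g φ, h2 g φ hφ⟩ rfl
    change q' (rt g φ) = π.ρ g (q' φ)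
    rw [e _ (h2 g φ hφ), e _ hφ, this]
  · obtain ⟨φ, hφ⟩ := h3 x
    exact ⟨φ.1, φ.2, by rw [e φ.1 φ.2]; exact hφ⟩

theorem subrep (π : Irr G) (X : (G → ℂ) → Prop)
    (h : ∃ j : π.V →ₗ[ℂ] (G → ℂ), Function.Injective j ∧ (∀ x, X (j x)) ∧
      ∀ (g : G) (x : π.V), j (π.ρ g x) = rt g (j x)) :
    P.Subrep π X := by
  obtain ⟨j, h1, h2, h3⟩ := h
  exact ⟨j, j.isLinear, h1, fun x => ⟨h2 x, fun g => h3 g x⟩⟩

theorem iso (π π' : Irr G) (h : P.Iso π π') : Iso π π' := by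
  obtain ⟨e, h1, h2, h3⟩ := h
  exact ⟨LinearEquiv.ofBijective h1.mk' h2, fun g x => h3 g x⟩

variable {H : Type} [Group H] [TopologicalSpace H]

theorem comp (A : G → Prop) (p : G → H) (π : Irr G) (σ : Irr H) :
    P.Comp A p π σ ↔ ∃ j : σ.V →ₗ[ℂ] π.V, j ≠ 0 ∧
      ∀ g, A g → ∀ x, j (σ.ρ (p g) x) = π.ρ g (j x) := by
  constructor
  · rintro ⟨j, h1, ⟨x, h2⟩, h3⟩
    refine ⟨h1.mk', fun h => h2 ?_, fun g hg x => h3 g hg x⟩
    exact LinearMap.congr_fun h x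
  · rintro ⟨j, h1, h3⟩
    refine ⟨j, j.isLinear, ?_, fun g hg x => h3 g hg x⟩
    by_contra h
    push Not at h
    exact h1 (LinearMap.ext h)

end gen

theorem bor_eq {A : Type} [CommRing A] (a : Aˣ) (x : A) (d : Aˣ) : P.bor a x d = bor a x d :=
  Units.ext rfl

theorem borA_eq (a : Idele) (x : Adele) (d : Idele) : (P.borA a x d : GA) = borA a x d :=
  Prod.ext (bor_eq _ _ _) (bor_eq _ _ _)

theorem rsm (φ : GA → ℂ) (h : RSmooth φ) : P.RSmooth (G := P.GA) φ := by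
  obtain ⟨U, hU, h⟩ := h
  exact ⟨U, hU, fun u hu => funext fun g => h g u hu⟩

theorem aut (φ : GA → ℂ) (h : AutForm φ) : P.AutForm φ := by
  obtain ⟨h1, h2, h3⟩ := h
  exact ⟨h1, rsm φ h2, h3⟩

theorem autRep (π : Irr GA) (h : AutRep π) : P.Automorphic π := by
  obtain ⟨W, q, h1, h2, h3, h4⟩ := h
  exact subq (G := P.GA) π P.AutForm ⟨W, q, fun φ hφ => aut φ (h1 φ hφ), h2, h3, h4⟩

theorem const (φ : GA → ℂ) (h : ConstTermZero φ) : P.ConstTermZero φ := by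
  intro g
  obtain ⟨S, hS, h⟩ := h g
  refine ⟨S, hS, fun x => ?_⟩
  rw [← h x]
  congr 1
  refine Multiset.map_congr rfl fun s _ => ?_
  rw [← borA_eq]
  rfl

theorem cusp (ω : Idele →* ℂˣ) (φ : GA → ℂ) (h : φ ∈ CuspForms ω) :
    P.CuspForm (fun z => (ω z : ℂ)) φ := by
  obtain ⟨h1, h2, h3, h4⟩ := h
  refine ⟨h1, rsm φ h2, fun z (g : GA) => ?_, const φ h4⟩
  exact (congrArg (fun b : GA => φ (b * (g : GA))) (borA_eq z 0 z)).trans (h3 z g)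

theorem cuspidal (π : Irr GA) (h : Cuspidal π) : P.Cuspidal π := by
  obtain ⟨ω, W, q, h1, h2, h3, h4⟩ := h
  exact ⟨fun z => (ω z : ℂ), subq (G := P.GA) π _ ⟨W, q, fun φ hφ => cusp ω φ (h1 hφ), h2, h3, h4⟩⟩

theorem hecke (ν : Hecke) : P.Hecke (fun z => (ν.μ z : ℂ)) := by
  refine ⟨?_, fun a b => ?_, fun κ => ?_, ?_⟩
  · have := ν.μ.map_one
    change ((ν.μ 1 : ℂˣ) : ℂ) = 1
    rw [this]; rfl
  · exact (congrArg Units.val (ν.μ.map_mul a b)).trans (Units.val_mul _ _)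
  · have := ν.auto κ
    change ((ν.μ (dgi κ) : ℂˣ) : ℂ) = 1
    rw [this]; rfl
  · obtain ⟨U, hU, h⟩ := ν.smooth
    refine ⟨U, hU, fun u hu => ?_⟩
    have := h u hu
    change ((ν.μ u : ℂˣ) : ℂ) = 1
    rw [this]; rfl

theorem ps (ν₁ ν₂ : Hecke) (φ : GA → ℂ) (h : φ ∈ PS ν₁ ν₂) :
    P.PS (fun z => (ν₁.μ z : ℂ)) (fun z => (ν₂.μ z : ℂ)) φ := by
  obtain ⟨h1, h2⟩ := h
  refine ⟨rsm φ h1, fun a x d (g : GA) => ?_⟩
  exact (congrArg (fun b : GA => φ (b * (g : GA))) (borA_eq a x d)).trans (h2 a x d g)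

theorem isobaric (π : Irr GA) (h : Isobaric π) : P.Isobaric π := by
  rcases h with h | ⟨ν₁, ν₂, h1, j, h2, h3, h4⟩
  · exact Or.inl (cuspidal π h)
  · refine Or.inr ⟨fun z => (ν₁.μ z : ℂ), fun z => (ν₂.μ z : ℂ), hecke ν₁, hecke ν₂, h1, ?_⟩
    exact subrep (G := P.GA) π _ ⟨j, h2, fun x => ps ν₁ ν₂ _ (h3 x), h4⟩

theorem compInf (π : Irr GA) (σ : Irr (GL (Fin 2) Kinf)) :
    P.CompInf π σ ↔ CompInf π σ := by
  refine (comp (G := P.GA) (H := P.GInf) P.AtInf P.prInf π σ).trans ?_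
  constructor
  · rintro ⟨j, h1, h2⟩
    exact ⟨j, h1, fun g x => h2 (1, g) rfl x⟩
  · rintro ⟨j, h1, h2⟩
    refine ⟨j, h1, fun g hg x => ?_⟩
    have e : g = (1, P.prInf g) := Prod.ext hg rfl
    have := h2 (P.prInf g) x
    rw [e]
    exact this

theorem compFin (v : Pl) (π : Irr GA) (σ : Irr (GL (Fin 2) (Kv v))) :
    P.Comp (G := P.GA) (H := P.GV (show P.Pl from v)) (P.At v) (P.pr v) π σ ↔ CompFin v π σ := by
  refine (comp (G := P.GA) (H := P.GV (show P.Pl from v)) (P.At v) (P.pr v) π σ).trans ?_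
  constructor
  · rintro ⟨j, h1, h2⟩
    exact ⟨j, h1, fun g hg hg' x => h2 g ⟨hg, hg'⟩ x⟩
  · rintro ⟨j, h1, h2⟩
    exact ⟨j, h1, fun g hg x => h2 g hg.1 hg.2 x⟩

theorem lifting (π Q : Irr GA) (h : IsLifting π Q) (h' : AutRep Q) : P.Lifting π Q := by
  obtain ⟨h1, h2, h3⟩ := h
  refine ⟨autRep Q h', isobaric Q h1, fun v hv τ hτ => ?_, fun hv τ hτ => ?_⟩
  · refine (compFin v Q τ).2 (h2 v ?_ τ ((compFin v π τ).1 hτ))
    obtain ⟨x, hx, h⟩ := hv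
    exact ⟨x, hx, fun g hg hg' hi => h g ⟨hg, hg'⟩ hi⟩
  · refine (compInf Q τ).2 (h3 ?_ τ ((compInf π τ).1 hτ))
    obtain ⟨x, hx, h⟩ := hv
    exact ⟨x, hx, fun g hg => h (1, g) rfl hg⟩

theorem conv (h : Main2) : ¬ ∃ l : Irr P.GInf → Irr P.GInf,
    ∀ π Q : Irr P.GA, P.Automorphic π → P.Lifting π Q →
      ∀ σ τ : Irr P.GInf, P.CompInf π σ → P.CompInf Q τ → P.Iso τ (l σ) := by
  rintro ⟨l, hl⟩
  refine h ⟨l, fun π Q h1 h2 h3 σ τ h4 h5 => iso (G := P.GInf) _ _ ?_⟩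
  exact hl π Q (autRep π h1) (lifting π Q h3 h2) σ τ ((compInf π σ).2 h4) ((compInf Q τ).2 h5)

end Pool.Agent.W2helper63.LL.Conv
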