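import Pool.Agent.W2helper63.LL.All1
import Pool.Agent.W2helper63.LL.Conv
import Pool.Agent.W2helper2.LL.All

set_option autoImplicit false

namespace Pool.Agent.W2helper63.LL

theorem main2 : Main2 := main2_of W2helper2.LL.bj

end Pool.Agent.W2helper63.LL
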