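import Pool.Agent.W2helper63.LL.Fin2

/-!
# Stage 2: automorphic forms in the sense of Borel and Jacquet
-/

set_option autoImplicit false

noncomputable section

namespace Pool.Agent.W2helper63.LL

open IsDedekindDomain Polynomial Matrix WithZero
open scoped Classical

/-- Automorphic forms on `GL₂(K)\GL₂(𝔸_K)` over the function field `K` (Borel-Jacquet, 5.8):
left invariant under `GL₂(K)`, right invariant under an open subgroup, and the space spanned by
the right translates under `GL₂(Kinf)` is admissible: for every open subgroup `H` of `GL₂(Kinf)`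
its `H`-fixed vectors lie in a finite-dimensional space. -/
def AutForm (φ : GA → ℂ) : Prop :=
  (∀ γ g, φ (dg γ * g) = φ g) ∧ RSmooth φ ∧
  ∀ H : Subgroup (GL (Fin 2) Kinf), IsOpen (H : Set (GL (Fin 2) Kinf)) →
    ∃ B : Finset (GA → ℂ), ∀ ψ ∈ gen (resInf rt) φ, (∀ h ∈ H, rt (ri h) ψ = ψ) →
      ψ ∈ Submodule.span ℂ (B : Set (GA → ℂ))

/-- irreducible subquotients of the space of automorphic forms -/
def AutRep (π : Irr GA) : Prop :=
  ∃ (W : Submodule ℂ (GA → ℂ)) (q : W →ₗ[ℂ] π.V), (∀ φ ∈ W, AutForm φ) ∧ Stable rt W ∧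
    Function.Surjective q ∧ ∀ (g : GA) (φ ψ : W), (ψ : GA → ℂ) = rt g φ → q ψ = π.ρ g (q φ)

/-- PIECE BJ: the representation `St_∞ ∘ pr` is a subquotient of the space of automorphic
forms. -/
def S_BJ : Prop := S_KL → S_FRI → S_OPEN → S_MOD →
  ∃ (W : Submodule ℂ (GA → ℂ)) (q : W →ₗ[ℂ] Q), (∀ φ ∈ W, AutForm φ) ∧ Stable rt W ∧
    LinearMap.range q = gen (resInf rq) u1 ∧
    ∀ (g : GA) (φ ψ : W), (ψ : GA → ℂ) = rt g φ → q ψ = rq g (q φ)

/-- PIECE ADM: a representation which is a finite sum of representations generated by Steinberg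
vectors is admissible. -/
def S_ADM : Prop :=
  ∀ (L : Type) [Field L] [Valued L (WithZero (Multiplicative ℤ))] (p : Lˣ), Res2 L p →
  ∀ (V : Type) [AddCommGroup V] [Module ℂ V] (ρ : Representation ℂ (GL (Fin 2) L) V)
    (ι : Type) (s : Finset ι) (u : ι → V), (∀ i ∈ s, StVec ρ p (u i)) →
    ∀ H : Subgroup (GL (Fin 2) L), IsOpen (H : Set (GL (Fin 2) L)) →
      ∃ B : Finset V, ∀ y ∈ ⨆ i ∈ s, gen ρ (u i), (∀ h ∈ H, ρ h y = y) →
        y ∈ Submodule.span ℂ (B : Set V)

end Pool.Agent.W2helper63.LL
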