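import Mathlib
import Pool.Agent.W2helper63.LL.Pres

/-!
# Smooth representations, functions on groups (generalities)
-/

set_option autoImplicit false

noncomputable section

namespace Pool.Agent.W2helper63.LL

open Matrix
open scoped Classical

/-! ## Smooth representations on complex vector spaces -/

section rep

variable {G : Type} [Group G]

def Stable {V : Type} [AddCommGroup V] [Module ℂ V] (ρ : Representation ℂ G V)
    (W : Submodule ℂ V) : Prop := ∀ g : G, ∀ v ∈ W, ρ g v ∈ W

/-- irreducible representations (algebraic sense) -/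
def Irred {V : Type} [AddCommGroup V] [Module ℂ V] (ρ : Representation ℂ G V) : Prop :=
  Nontrivial V ∧ ∀ W : Submodule ℂ V, Stable ρ W → W = ⊥ ∨ W = ⊤

variable [TopologicalSpace G]

/-- smooth: every vector is fixed by an open subgroup -/
def Smooth {V : Type} [AddCommGroup V] [Module ℂ V] (ρ : Representation ℂ G V) : Prop :=
  ∀ v : V, ∃ U : Subgroup G, IsOpen (U : Set G) ∧ ∀ g ∈ U, ρ g v = v

end rep

/-- isomorphism of irreducible smooth representations -/
def Iso {G : Type} [Group G] [TopologicalSpace G] (π π' : Irr G) : Prop :=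
  ∃ e : π.V ≃ₗ[ℂ] π'.V, ∀ (g : G) (x : π.V), e (π.ρ g x) = π'.ρ g (e x)

/-- right translation on functions: `(rt g φ)(x) = φ(x g)` -/
def rt {G : Type} [Group G] : Representation ℂ G (G → ℂ) where
  toFun g :=
    { toFun := fun φ x => φ (x * g)
      map_add' := fun _ _ => rfl
      map_smul' := fun _ _ => rfl }
  map_one' := by ext φ x; simp
  map_mul' g h := by ext φ x; simp [mul_assoc]

/-- `π` is isomorphic to a subquotient `W/ker q` of the space `X` of functions -/
def IsSubquotient {G : Type} [Group G] [TopologicalSpace G] (π : Irr G)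
    (X : Submodule ℂ (G → ℂ)) : Prop :=
  ∃ (W : Submodule ℂ (G → ℂ)) (q : W →ₗ[ℂ] π.V), W ≤ X ∧ Stable rt W ∧ Function.Surjective q ∧
    ∀ (g : G) (φ ψ : W), (ψ : G → ℂ) = rt g φ → q ψ = π.ρ g (q φ)

/-- `π` is isomorphic to a subrepresentation of the space `X` of functions -/
def IsSubrep {G : Type} [Group G] [TopologicalSpace G] (π : Irr G)
    (X : Submodule ℂ (G → ℂ)) : Prop :=
  ∃ j : π.V →ₗ[ℂ] (G → ℂ), Function.Injective j ∧ (∀ x, j x ∈ X) ∧
    ∀ (g : G) (x : π.V), j (π.ρ g x) = rt g (j x)

end Pool.Agent.W2helper63.LL
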