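import Mathlib
import Pool.Agent.W2helper63.LL.Base

/-!
# Automorphic representations of `GL₂` over `F₂(T)` and global liftings (definitions)

`K = F₂(T)`, `Af` = finite adeles (restricted product over the monic irreducible polynomials),
`Kinf = F₂((1/T))` = completion at the infinite place, adeles `Af × Kinf`,
`G = GL₂(Af) × GL₂(Kinf) = GL₂(𝔸_K)`.
-/

set_option autoImplicit false

noncomputable section

namespace Pool.Agent.W2helper63.LL

open IsDedekindDomain Polynomial Matrix
open scoped Classical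

/-- the field of constants `F₂`, the ring `F₂[T]`, the field `K = F₂(T)` -/
abbrev R : Type := Polynomial (ZMod 2)
abbrev K : Type := RatFunc (ZMod 2)

/-- a finite place of `K` -/
abbrev Pl : Type := HeightOneSpectrum R

/-- the completion of `K` at a finite place -/
abbrev Kv (v : Pl) : Type := v.adicCompletion K

/-- the completion `F₂((1/T))` of `K` at the infinite place -/
abbrev Kinf : Type := RatFunc.CompletionAtInfty (ZMod 2)

/-- finite adeles of `K` -/
abbrev Af : Type := FiniteAdeleRing R K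

/-- adeles and ideles of `K` -/
abbrev Adele : Type := Af × Kinf
abbrev Idele : Type := Afˣ × Kinfˣ

/-- `GL₂` of the adeles of `K` -/
abbrev GA : Type := GL (Fin 2) Af × GL (Fin 2) Kinf

/-- evaluation of a finite adele at a finite place -/
def ev (v : Pl) : Af →+* Kv v where
  toFun a := a v
  map_one' := rfl
  map_mul' _ _ := rfl
  map_zero' := rfl
  map_add' _ _ := rfl

/-- the component of an element of `GL₂(𝔸_K)` at a finite place -/
def pr (v : Pl) (g : GA) : GL (Fin 2) (Kv v) := GeneralLinearGroup.map (ev v) g.1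

/-- diagonal embedding of `GL₂(K)` -/
def dg (γ : GL (Fin 2) K) : GA :=
  (GeneralLinearGroup.map (algebraMap K Af) γ, GeneralLinearGroup.map (algebraMap K Kinf) γ)

/-- the upper triangular matrix `(a x; 0 d)` -/
def bor {S : Type} [CommRing S] (a : Sˣ) (x : S) (d : Sˣ) : GL (Fin 2) S where
  val := !![(a : S), x; 0, (d : S)]
  inv := !![((a⁻¹ : Sˣ) : S), -((a⁻¹ : Sˣ) : S) * x * ((d⁻¹ : Sˣ) : S); 0, ((d⁻¹ : Sˣ) : S)]
  val_inv := by
    ext i j
    fin_cases i <;> fin_cases j <;> simp [Matrix.mul_apply, Fin.sum_univ_two, ← mul_assoc]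
  inv_val := by
    ext i j
    fin_cases i <;> fin_cases j <;> simp [Matrix.mul_apply, Fin.sum_univ_two, mul_assoc]

/-- the elements `(a x; 0 d)` of `B(𝔸_K)` -/
def borA (a : Idele) (x : Adele) (d : Idele) : GA := (bor a.1 x.1 d.1, bor a.2 x.2 d.2)

/-! ## Automorphic representations of `GL₂(𝔸_K)` -/

/-- `φ` is invariant under right translation by an open subgroup -/
def RSmooth (φ : GA → ℂ) : Prop :=
  ∃ U : Subgroup GA, IsOpen (U : Set GA) ∧ ∀ g : GA, ∀ u ∈ U, φ (g * u) = φ g

/-- The constant term of `φ` along the upper triangular unipotent group vanishes: for each `g`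
the function `x ↦ φ((1 x; 0 1) g)` on the compact group `𝔸_K/K` has integral `0`. For a locally
constant function this means that some finite average of its translates vanishes identically
(take representatives of `𝔸_K/(K+H)`, `H` an open subgroup of periods). -/
def ConstTermZero (φ : GA → ℂ) : Prop :=
  ∀ g : GA, ∃ S : Multiset Adele, S ≠ 0 ∧
    ∀ x : Adele, (S.map fun s => φ (borA 1 (x + s) 1 * g)).sum = 0

theorem sum_prod {α β M : Type} [AddCommMonoid M] (S : Multiset α) (T : Multiset β)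
    (f : α → β → M) :
    ((S ×ˢ T).map fun p => f p.1 p.2).sum = (S.map fun a => (T.map fun b => f a b).sum).sum := by
  induction S using Multiset.induction_on with
  | empty => simp
  | cons a S ih =>
    rw [Multiset.cons_product, Multiset.map_add, Multiset.sum_add, ih, Multiset.map_cons,
      Multiset.sum_cons, Multiset.map_map]
    rfl

/-- Cusp forms on `GL₂(K)\GL₂(𝔸_K)` with central character `ω`: functions that are left
invariant under `GL₂(K)`, right invariant under an open subgroup, transform by `ω` under the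
centre and have vanishing constant terms. -/
def CuspForms (ω : Idele →* ℂˣ) : Submodule ℂ (GA → ℂ) where
  carrier := {φ | (∀ γ g, φ (dg γ * g) = φ g) ∧ RSmooth φ ∧
    (∀ z g, φ (borA z 0 z * g) = (ω z : ℂ) * φ g) ∧ ConstTermZero φ}
  zero_mem' := by
    refine ⟨fun _ _ => rfl, ⟨⊤, isOpen_univ, fun _ _ _ => rfl⟩, fun _ _ => by simp, fun g => ?_⟩
    exact ⟨{0}, by simp, fun x => by simp⟩
  add_mem' := by
    rintro φ ψ ⟨h1, ⟨U, hU, h2⟩, h3, h4⟩ ⟨k1, ⟨U', hU', k2⟩, k3, k4⟩
    refine ⟨fun γ g => by simp [h1, k1], ⟨U ⊓ U', hU.inter hU', fun g u hu => ?_⟩,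
      fun z g => by simp [h3, k3, mul_add], fun g => ?_⟩
    · simp [h2 g u hu.1, k2 g u hu.2]
    · obtain ⟨S, hS, h⟩ := h4 g
      obtain ⟨S', hS', k⟩ := k4 g
      refine ⟨(S ×ˢ S').map fun p => p.1 + p.2, ?_, fun x => ?_⟩
      · obtain ⟨s, hs⟩ := Multiset.exists_mem_of_ne_zero hS
        obtain ⟨s', hs'⟩ := Multiset.exists_mem_of_ne_zero hS'
        intro h0
        have : s + s' ∈ (S ×ˢ S').map fun p : Adele × Adele => p.1 + p.2 :=
          Multiset.mem_map.2 ⟨(s, s'), Multiset.mem_product.2 ⟨hs, hs'⟩, rfl⟩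
        rw [h0] at this
        simp at this
      · have e1 : ∀ x : Adele, (S.map fun s => (S'.map fun s' =>
            φ (borA 1 (x + (s + s')) 1 * g)).sum).sum = 0 := fun x => by
          rw [Multiset.sum_map_sum_map]
          have : ∀ b : Adele, (S.map fun a => φ (borA 1 (x + (a + b)) 1 * g)).sum = 0 := by
            intro b
            have := h (x + b)
            simpa [add_assoc, add_comm, add_left_comm] using this
          simp [this]
        have e2 : ∀ x : Adele, (S.map fun s => (S'.map fun s' =>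
            ψ (borA 1 (x + (s + s')) 1 * g)).sum).sum = 0 := fun x => by
          have : ∀ b : Adele, (S'.map fun a => ψ (borA 1 (x + (b + a)) 1 * g)).sum = 0 := by
            intro b
            have := k (x + b)
            simpa [add_assoc, add_comm, add_left_comm] using this
          simp [this]
        rw [Multiset.map_map]
        have := sum_prod S S' fun s s' => φ (borA 1 (x + (s + s')) 1 * g) +
          ψ (borA 1 (x + (s + s')) 1 * g)
        simp only [Function.comp_def, Pi.add_apply]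
        rw [this]
        simp only [Multiset.sum_map_add, e1 x, e2 x, add_zero]
  smul_mem' := by
    rintro c φ ⟨h1, ⟨U, hU, h2⟩, h3, h4⟩
    refine ⟨fun γ g => by simp [h1], ⟨U, hU, fun g u hu => by simp [h2 g u hu]⟩,
      fun z g => by simp [h3, mul_left_comm], fun g => ?_⟩
    obtain ⟨S, hS, h⟩ := h4 g
    refine ⟨S, hS, fun x => ?_⟩
    simp only [Pi.smul_apply, smul_eq_mul]
    rw [Multiset.sum_map_mul_left, h x, mul_zero]

/-- diagonal embedding of `Kˣ` in the ideles -/
def dgi (κ : Kˣ) : Idele :=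
  (Units.map (algebraMap K Af).toMonoidHom κ, Units.map (algebraMap K Kinf).toMonoidHom κ)

/-- Hecke characters of `K` (continuous, i.e. locally constant, homomorphisms from the ideles
to `ℂˣ`, trivial on `Kˣ`; not necessarily unitary) -/
structure Hecke where
  μ : Idele →* ℂˣ
  smooth : ∃ U : Subgroup Idele, IsOpen (U : Set Idele) ∧ ∀ u ∈ U, μ u = 1
  auto : ∀ κ : Kˣ, μ (dgi κ) = 1

/-- The induced representation `Ind_{B(𝔸)}^{G(𝔸)}(ν₁ ⊗ ν₂)` (not normalized): right smooth
functions with `φ((a x; 0 d) g) = ν₁(a) ν₂(d) φ(g)`. -/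
def PS (ν₁ ν₂ : Hecke) : Submodule ℂ (GA → ℂ) where
  carrier := {φ | RSmooth φ ∧
    ∀ a x d g, φ (borA a x d * g) = (ν₁.μ a : ℂ) * (ν₂.μ d : ℂ) * φ g}
  zero_mem' := ⟨⟨⊤, isOpen_univ, fun _ _ _ => rfl⟩, fun _ _ _ _ => by simp⟩
  add_mem' := by
    rintro φ ψ ⟨⟨U, hU, h2⟩, h3⟩ ⟨⟨U', hU', k2⟩, k3⟩
    refine ⟨⟨U ⊓ U', hU.inter hU', fun g u hu => ?_⟩, fun a x d g => by simp [h3, k3, mul_add]⟩
    simp [h2 g u hu.1, k2 g u hu.2]
  smul_mem' := by
    rintro c φ ⟨⟨U, hU, h2⟩, h3⟩
    exact ⟨⟨U, hU, fun g u hu => by simp [h2 g u hu]⟩, fun a x d g => by simp [h3, mul_left_comm]⟩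

/-- cuspidal automorphic representations of `GL₂(𝔸_K)` -/
def Cuspidal (π : Irr GA) : Prop := ∃ ω : Idele →* ℂˣ, IsSubquotient π (CuspForms ω)

/-- Automorphic representations of `GL₂(𝔸_K)`: the cuspidal ones and the irreducible
subquotients of the representations induced from (cuspidal) automorphic characters of the torus
(equivalent to the definition by automorphic forms, by Langlands, *On the notion of an
automorphic representation*, Proposition 2). -/
def Automorphic (π : Irr GA) : Prop :=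
  Cuspidal π ∨ ∃ ν₁ ν₂ : Hecke, IsSubquotient π (PS ν₁ ν₂)

/-- the idele with component `T` at the infinite place and `1` elsewhere; its norm is `2` -/
def Tinf : Idele :=
  (1, Units.map (algebraMap K Kinf).toMonoidHom (Units.mk0 RatFunc.X RatFunc.X_ne_zero))

/-- Isobaric automorphic representations of `GL₂(𝔸_K)`: the cuspidal ones, and the isobaric sums
`μ₁ ⊞ μ₂` of two Hecke characters, ordered such that `|μ₁/μ₂| = ‖·‖^s` with `s ≥ 0`. The latter
is the unique irreducible subrepresentation of the normalized induced representation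
`I(μ₂, μ₁)`, i.e. of `PS ν₁ ν₂` with `ν₁ = μ₂ ‖·‖^(1/2)`, `ν₂ = μ₁ ‖·‖^(-1/2)`, where
`|ν₂/ν₁| = ‖·‖^(s-1)`. As `‖Tinf‖ = 2`, the condition `s ≥ 0` says `|ν₂/ν₁|(Tinf) ≥ 1/2`. -/
def Isobaric (P : Irr GA) : Prop :=
  Cuspidal P ∨ ∃ ν₁ ν₂ : Hecke,
    ‖(ν₁.μ Tinf : ℂ)‖ ≤ 2 * ‖(ν₂.μ Tinf : ℂ)‖ ∧ IsSubrep P (PS ν₁ ν₂)

/-! ## Local components -/

/-- `σ` is the component of `π` at the finite place `v`: it embeds into the restriction of `π`
to the group of elements which are `1` at all other places. -/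
def CompFin (v : Pl) (π : Irr GA) (σ : Irr (GL (Fin 2) (Kv v))) : Prop :=
  ∃ j : σ.V →ₗ[ℂ] π.V, j ≠ 0 ∧ ∀ g : GA, g.2 = 1 → (∀ w : Pl, w ≠ v → pr w g = 1) →
    ∀ x : σ.V, j (σ.ρ (pr v g) x) = π.ρ g (j x)

/-- `σ` is the component of `π` at the infinite place -/
def CompInf (π : Irr GA) (σ : Irr (GL (Fin 2) Kinf)) : Prop :=
  ∃ j : σ.V →ₗ[ℂ] π.V, j ≠ 0 ∧ ∀ (g : GL (Fin 2) Kinf) (x : σ.V), j (σ.ρ g x) = π.ρ (1, g) (j x)

/-- the matrices in `GL₂(O)`, `O` the valuation ring -/
def Integral {L : Type} [Field L] [Valued L (WithZero (Multiplicative ℤ))]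
    (g : GL (Fin 2) L) : Prop :=
  ∀ i j, Valued.v (g.1 i j) ≤ 1 ∧ Valued.v (g⁻¹.1 i j) ≤ 1

/-- `π` is unramified at the finite place `v` -/
def UnramFin (v : Pl) (π : Irr GA) : Prop :=
  ∃ x : π.V, x ≠ 0 ∧ ∀ g : GA, g.2 = 1 → (∀ w : Pl, w ≠ v → pr w g = 1) →
    Integral (pr v g) → π.ρ g x = x

/-- `π` is unramified at the infinite place -/
def UnramInf (π : Irr GA) : Prop :=
  ∃ x : π.V, x ≠ 0 ∧ ∀ g : GL (Fin 2) Kinf, Integral g → π.ρ (1, g) x = x

/-- `P` is a global lifting of `π` for the standard representation of the dual group `GL₂(ℂ)`: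
it is isobaric and has the same component as `π` at every place where `π` is unramified. -/
def IsLifting (π P : Irr GA) : Prop :=
  Isobaric P ∧ (∀ v : Pl, UnramFin v π → ∀ τ, CompFin v π τ → CompFin v P τ) ∧
    (UnramInf π → ∀ τ, CompInf π τ → CompInf P τ)

/-- The negation of Q1 for `F = F₂((1/T))`, `𝐆 = GL₂`, `ρ` the standard representation, with the
single global situation `K = F₂(T)`, infinite place. -/
def Main : Prop :=
  ¬ ∃ l : Irr (GL (Fin 2) Kinf) → Irr (GL (Fin 2) Kinf),
    ∀ π P : Irr GA, Automorphic π → IsLifting π P →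
      ∀ σ τ : Irr (GL (Fin 2) Kinf), CompInf π σ → CompInf P τ → Iso τ (l σ)

end Pool.Agent.W2helper63.LL
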