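import Pool.Agent.W2helper63.LL.Stm

set_option autoImplicit false

noncomputable section

namespace Pool.Agent.W2helper63.LL

open IsDedekindDomain Polynomial Matrix WithZero
open scoped Classical

section gen

variable {G V : Type} [Group G] [AddCommGroup V] [Module ℂ V] (ρ : Representation ℂ G V) (u : V)

theorem mem_gen (g : G) : ρ g u ∈ gen ρ u := Submodule.subset_span ⟨g, rfl⟩

theorem self_mem_gen : u ∈ gen ρ u := by simpa using mem_gen ρ u 1

theorem gen_stable : Stable ρ (gen ρ u) := by
  intro g v hv
  unfold gen at hv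
  induction hv using Submodule.span_induction with
  | mem x hx =>
    obtain ⟨h, rfl⟩ := hx
    have : ρ g (ρ h u) = ρ (g * h) u := by simp
    simp only [this]
    exact mem_gen ρ u _
  | zero => simp
  | add x y _ _ hx hy => rw [map_add]; exact Submodule.add_mem _ hx hy
  | smul c x _ hx => rw [map_smul]; exact Submodule.smul_mem _ _ hx

theorem gen_le (W : Submodule ℂ V) (hW : Stable ρ W) (hu : u ∈ W) : gen ρ u ≤ W := by
  unfold gen
  rw [Submodule.span_le]
  rintro _ ⟨g, rfl⟩
  exact hW g u hu

variable [TopologicalSpace G]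

/-- irreducible quotient of a cyclic smooth representation -/
theorem exists_quot (h2 : S_GEN2) (hu : u ≠ 0)
    (hs : ∀ y ∈ gen ρ u, ∃ H : Subgroup G, IsOpen (H : Set G) ∧ ∀ g ∈ H, ρ g y = y) :
    ∃ (π : Irr G) (q : gen ρ u →ₗ[ℂ] π.V), Function.Surjective q ∧
      (∀ (g : G) (x y : gen ρ u), (y : V) = ρ g x → q y = π.ρ g (q x)) ∧
      q ⟨u, self_mem_gen ρ u⟩ ≠ 0 := by
  obtain ⟨M, hM, hMg, huM, hmax⟩ := h2 G V ρ u hu
  set E := gen ρ u with hE
  have hEs : Stable ρ E := gen_stable ρ u
  set M' : Submodule ℂ E := M.comap E.subtype with hM'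
  have hM's : Stable (subRep ρ E hEs) M' := by
    intro g v hv
    exact hM g _ hv
  let P := quoRep (subRep ρ E hEs) M' hM's
  have hPmk : ∀ (g : G) (x : E), P g (M'.mkQ x) = M'.mkQ (subRep ρ E hEs g x) := by
    intro g x; rfl
  have hne : M'.mkQ ⟨u, self_mem_gen ρ u⟩ ≠ 0 := by
    intro h0
    rw [Submodule.mkQ_apply, Submodule.Quotient.mk_eq_zero] at h0
    exact huM h0
  let π : Irr G :=
    { V := E ⧸ M'
      ρ := P
      smooth := by
        intro v
        obtain ⟨x, rfl⟩ := M'.mkQ_surjective v
        obtain ⟨H, hH, hx⟩ := hs x x.2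
        refine ⟨H, hH, fun g hg => ?_⟩
        rw [hPmk]
        congr 1
        exact Subtype.ext (hx g hg)
      irred := by
        refine ⟨⟨⟨_, 0, hne⟩⟩, fun W hW => ?_⟩
        let W1 : Submodule ℂ V := (W.comap M'.mkQ).map E.subtype
        have hW1 : Stable ρ W1 := by
          rintro g _ ⟨x, hx, rfl⟩
          refine ⟨subRep ρ E hEs g x, ?_, rfl⟩
          have := hW g _ hx
          rw [hPmk] at this
          exact this
        have hMW : M ≤ W1 := by
          intro m hm
          refine ⟨⟨m, hMg hm⟩, ?_, rfl⟩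
          have : M'.mkQ ⟨m, hMg hm⟩ = 0 := by
            rw [Submodule.mkQ_apply, Submodule.Quotient.mk_eq_zero]
            exact hm
          show M'.mkQ ⟨m, hMg hm⟩ ∈ W
          rw [this]; exact W.zero_mem
        have hWE : W1 ≤ E := by
          rintro _ ⟨x, hx, rfl⟩
          exact x.2
        rcases hmax W1 hW1 hMW hWE with h | h
        · left
          rw [eq_bot_iff]
          intro w hw
          obtain ⟨x, rfl⟩ := M'.mkQ_surjective w
          have : (x : V) ∈ W1 := ⟨x, hw, rfl⟩
          rw [h] at this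
          rw [Submodule.mem_bot, Submodule.mkQ_apply, Submodule.Quotient.mk_eq_zero]
          exact this
        · right
          rw [eq_top_iff]
          intro w _
          obtain ⟨x, rfl⟩ := M'.mkQ_surjective w
          have h1 : E ≤ W1 := gen_le ρ u W1 hW1 h
          obtain ⟨x', hx', hxx⟩ := h1 x.2
          have : x' = x := Subtype.ext hxx
          rw [← this]
          exact hx' }
  refine ⟨π, M'.mkQ, M'.mkQ_surjective, ?_, hne⟩
  intro g x y hxy
  show M'.mkQ y = P g (M'.mkQ x)
  rw [hPmk]
  congr 1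
  exact Subtype.ext hxy

end gen

end Pool.Agent.W2helper63.LL
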