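import Pool.Agent.W2helper63.LL.Fin1

set_option autoImplicit false

noncomputable section

namespace Pool.Agent.W2helper63.LL

open IsDedekindDomain Polynomial Matrix WithZero
open scoped Classical

/-- PIECE EMB. -/
def S_EMB : Prop := ∀ (v : Pl) (h : GL (Fin 2) (Kv v)),
  ∃ g : GA, g.2 = 1 ∧ (∀ w : Pl, w ≠ v → pr w g = 1) ∧ pr v g = h

def riHom : GL (Fin 2) Kinf →* GA := MonoidHom.inr _ _

theorem riHom_apply (h : GL (Fin 2) Kinf) : riHom h = ri h := rfl

/-- restriction to the group at infinity -/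
def resInf {V : Type} [AddCommGroup V] [Module ℂ V] (ρ : Representation ℂ GA V) :
    Representation ℂ (GL (Fin 2) Kinf) V := ρ.comp riHom

theorem resInf_apply {V : Type} [AddCommGroup V] [Module ℂ V] (ρ : Representation ℂ GA V)
    (h : GL (Fin 2) Kinf) : resInf ρ h = ρ (ri h) := rfl

theorem consts_stable : Stable (rt : Representation ℂ GA (GA → ℂ)) consts := by
  intro g φ hφ
  unfold consts at hφ ⊢
  rw [Submodule.mem_span_singleton] at hφ ⊢
  obtain ⟨c, rfl⟩ := hφ
  exact ⟨c, rfl⟩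

/-- functions modulo constants -/
abbrev Q : Type := (GA → ℂ) ⧸ consts

def rq : Representation ℂ GA Q := quoRep rt consts consts_stable

theorem rq_mk (g : GA) (φ : GA → ℂ) : rq g (consts.mkQ φ) = consts.mkQ (rt g φ) := rfl

def u1 : Q := consts.mkQ phi0

section model

variable (mod : phi0 ∈ PS h1 h1 ∧ (∀ g : GA, g.2 = 1 → rt g phi0 = phi0) ∧ phi0 ∉ consts ∧
  (∀ i : GL (Fin 2) Kinf, Iw i → rt (ri i) phi0 = phi0) ∧
  (rt (ri (ww pinf)) phi0 + phi0 ∈ consts) ∧
  (phi0 + rt (ri sw) phi0 + rt (ri (nu 1 * sw)) phi0 ∈ consts) ∧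
  (∀ z : Kinfˣ, rt (ri (bor z 0 z)) phi0 = phi0))

include mod

theorem u1_ne : u1 ≠ 0 := by
  intro h
  unfold u1 at h
  rw [Submodule.mkQ_apply, Submodule.Quotient.mk_eq_zero] at h
  exact mod.2.2.1 h

theorem u1_st : StVec (resInf rq) pinf u1 where
  iw := by
    intro g hg
    rw [resInf_apply]
    show rq (ri g) (consts.mkQ phi0) = consts.mkQ phi0
    rw [rq_mk, mod.2.2.2.1 g hg]
  w := by
    rw [resInf_apply]
    show rq _ (consts.mkQ phi0) = -consts.mkQ phi0
    rw [rq_mk, eq_neg_iff_add_eq_zero, ← map_add]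
    rw [Submodule.mkQ_apply, Submodule.Quotient.mk_eq_zero]
    exact mod.2.2.2.2.1
  rel := by
    rw [resInf_apply, resInf_apply]
    show consts.mkQ phi0 + rq _ (consts.mkQ phi0) + rq _ (consts.mkQ phi0) = 0
    rw [rq_mk, rq_mk, ← map_add, ← map_add]
    rw [Submodule.mkQ_apply, Submodule.Quotient.mk_eq_zero]
    exact mod.2.2.2.2.2.1
  cen := by
    intro z
    rw [resInf_apply]
    show rq _ (consts.mkQ phi0) = consts.mkQ phi0
    rw [rq_mk, mod.2.2.2.2.2.2 z]

/-- the elements with component `1` at infinity act trivially -/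
theorem rq_fin (g : GA) (hg : g.2 = 1) (y : Q) (hy : y ∈ gen (resInf rq) u1) : rq g y = y := by
  unfold gen at hy
  induction hy using Submodule.span_induction with
  | mem x hx =>
    obtain ⟨h, rfl⟩ := hx
    simp only [resInf_apply]
    have hc : g * ri h = ri h * g := by
      obtain ⟨g1, g2⟩ := g
      simp only at hg
      subst hg
      ext1 <;> simp [ri]
    have : rq g (rq (ri h) u1) = rq (g * ri h) u1 := by simp
    rw [this, hc]
    have h2 : rq (ri h * g) u1 = rq (ri h) (rq g u1) := by simp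
    rw [h2]
    congr 1
    show rq g (consts.mkQ phi0) = consts.mkQ phi0
    rw [rq_mk, mod.2.1 g hg]
  | zero => simp
  | add x y _ _ hx hy => rw [map_add, hx, hy]
  | smul c x _ hx => rw [map_smul, hx]

theorem rq_eq (g : GA) (y : Q) (hy : y ∈ gen (resInf rq) u1) :
    rq g y = resInf rq g.2 y := by
  have h : g = ri g.2 * (g.1, 1) := by ext1 <;> simp [ri]
  have h' : rq g y = rq (ri g.2) (rq (g.1, 1) y) := by
    conv_lhs => rw [h]
    simp
  rw [h', rq_fin mod (g.1, 1) rfl y hy, resInf_apply]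

/-- the Steinberg representation at infinity -/
def sigma (kl : S_KL) (fri : S_FRI) (op : S_OPEN) (g1 : S_GEN1) : Irr (GL (Fin 2) Kinf) where
  V := gen (resInf rq) u1
  ρ := subRep (resInf rq) (gen (resInf rq) u1) (gen_stable _ _)
  smooth := by
    rintro ⟨y, hy⟩
    obtain ⟨H, hH, hi⟩ := op.2
    obtain ⟨H', hH', h⟩ := g1 (GL (Fin 2) Kinf) Q (resInf rq) u1
      ⟨H, hH, fun g hg => (u1_st mod).iw g (hi g hg)⟩ y hy
    exact ⟨H', hH', fun g hg => Subtype.ext (h g hg)⟩
  irred := by
    refine ⟨⟨⟨⟨u1, self_mem_gen _ _⟩, 0, fun h => u1_ne mod (congrArg Subtype.val h)⟩⟩,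
      fun W hW => ?_⟩
    by_cases hb : W = ⊥
    · exact Or.inl hb
    · right
      obtain ⟨w, hw, hw0⟩ := W.ne_bot_iff.1 hb
      let W1 : Submodule ℂ Q := W.map (gen (resInf rq) u1).subtype
      have hW1 : Stable (resInf rq) W1 := by
        rintro g _ ⟨x, hx, rfl⟩
        exact ⟨_, hW g x hx, rfl⟩
      have := (kl Kinf pinf fri Q (resInf rq) u1 (u1_st mod)).1 W1 hW1 w ⟨w, hw, rfl⟩ w.2
        (fun h => hw0 (Subtype.ext h))
      have h1 : gen (resInf rq) u1 ≤ W1 := gen_le _ _ W1 hW1 this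
      rw [eq_top_iff]
      intro x _
      obtain ⟨x', hx', hxx⟩ := h1 x.2
      have : x' = x := Subtype.ext hxx
      rw [← this]; exact hx'

/-- the Steinberg representation at infinity as a representation of `GL₂(𝔸_K)` -/
def sigmaA (kl : S_KL) (fri : S_FRI) (op : S_OPEN) (g1 : S_GEN1) : Irr GA where
  V := (sigma mod kl fri op g1).V
  ρ := (sigma mod kl fri op g1).ρ.comp (MonoidHom.snd _ _)
  smooth := by
    intro y
    obtain ⟨H, hH, h⟩ := (sigma mod kl fri op g1).smooth y
    exact ⟨H.comap (MonoidHom.snd _ _), hH.preimage continuous_snd, fun g hg => h g.2 hg⟩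
  irred := by
    refine ⟨(sigma mod kl fri op g1).irred.1, fun W hW => ?_⟩
    refine (sigma mod kl fri op g1).irred.2 W fun g v hv => ?_
    exact hW (ri g) v hv

theorem consts_le_PS : consts ≤ PS h1 h1 := by
  unfold consts
  rw [Submodule.span_le, Set.singleton_subset_iff]
  refine ⟨⟨⊤, isOpen_univ, fun _ _ _ => rfl⟩, fun a x d g => ?_⟩
  simp [h1]

omit mod in
theorem RSmooth.rt {φ : GA → ℂ} (h : RSmooth φ) (x : GA) : RSmooth (rt x φ) := by
  obtain ⟨H, hH, h⟩ := h
  refine ⟨H.map (MulAut.conj x).toMonoidHom, ?_, ?_⟩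
  · have : ((H.map (MulAut.conj x).toMonoidHom : Subgroup GA) : Set GA) =
        (fun y => x⁻¹ * y * x) ⁻¹' (H : Set GA) := by
      ext y
      simp only [Subgroup.coe_map, Set.mem_image, SetLike.mem_coe, Set.mem_preimage]
      constructor
      · rintro ⟨z, hz, rfl⟩
        simpa [mul_assoc] using hz
      · intro hy
        exact ⟨_, hy, by simp [mul_assoc]⟩
    rw [this]
    exact hH.preimage (by fun_prop)
  · rintro g _ ⟨u, hu, rfl⟩
    show φ (g * (x * u * x⁻¹) * x) = φ (g * x)
    have : g * (x * u * x⁻¹) * x = g * x * u := by group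
    rw [this, h _ _ hu]

omit mod in
theorem PS_stable : Stable (rt : Representation ℂ GA (GA → ℂ)) (PS h1 h1) := by
  rintro x φ ⟨h, h'⟩
  refine ⟨h.rt x, fun a y d g => ?_⟩
  show φ (borA a y d * g * x) = _ * φ (g * x)
  rw [mul_assoc, h']

theorem sigmaA_auto (kl : S_KL) (fri : S_FRI) (op : S_OPEN) (g1 : S_GEN1) :
    Automorphic (sigmaA mod kl fri op g1) := by
  right
  refine ⟨h1, h1, (gen (resInf rq) u1).comap consts.mkQ, ?_, ?_, ?_, ?_, ?_⟩
  · exact
    { toFun := fun φ => (⟨consts.mkQ φ, φ.2⟩ : gen (resInf rq) u1)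
      map_add' := fun x y => rfl
      map_smul' := fun c x => rfl }
  · -- W ≤ PS
    intro φ hφ
    have key : ∀ y ∈ gen (resInf rq) u1, ∀ φ : GA → ℂ, consts.mkQ φ = y → φ ∈ PS h1 h1 := by
      intro y hy
      unfold gen at hy
      induction hy using Submodule.span_induction with
      | mem x hx =>
        obtain ⟨h, rfl⟩ := hx
        intro φ hφ
        have : consts.mkQ (φ - rt (ri h) phi0) = 0 := by
          rw [map_sub, hφ, sub_eq_zero]; rfl
        rw [Submodule.mkQ_apply, Submodule.Quotient.mk_eq_zero] at this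
        have h2 := Submodule.add_mem _ (consts_le_PS mod this) (PS_stable (ri h) _ mod.1)
        simpa using h2
      | zero =>
        intro φ hφ
        rw [Submodule.mkQ_apply, Submodule.Quotient.mk_eq_zero] at hφ
        exact consts_le_PS mod hφ
      | add x y _ _ hx hy =>
        intro φ hφ
        obtain ⟨ψ, rfl⟩ := consts.mkQ_surjective x
        have := hy (φ - ψ) (by rw [map_sub, hφ]; simp)
        simpa using Submodule.add_mem _ (hx ψ rfl) this
      | smul c x _ hx =>
        intro φ hφ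
        obtain ⟨ψ, rfl⟩ := consts.mkQ_surjective x
        have h3 : consts.mkQ (φ - c • ψ) = 0 := by rw [map_sub, hφ, map_smul, sub_self]
        rw [Submodule.mkQ_apply, Submodule.Quotient.mk_eq_zero] at h3
        have := Submodule.add_mem _ (consts_le_PS mod h3) (Submodule.smul_mem _ c (hx ψ rfl))
        simpa using this
    exact key _ hφ φ rfl
  · intro g φ hφ
    show consts.mkQ (rt g φ) ∈ gen (resInf rq) u1
    rw [← rq_mk, rq_eq mod g _ hφ]
    exact gen_stable _ _ _ _ hφ
  · rintro ⟨y, hy⟩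
    obtain ⟨φ, rfl⟩ := consts.mkQ_surjective y
    exact ⟨⟨φ, hy⟩, rfl⟩
  · intro g φ ψ hψ
    apply Subtype.ext
    show consts.mkQ (ψ : GA → ℂ) = resInf rq g.2 (consts.mkQ (φ : GA → ℂ))
    rw [hψ, ← rq_mk, rq_eq mod g _ φ.2]

end model

end Pool.Agent.W2helper63.LL
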