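import Pool.Agent.W2helper63.LL.Fin2

set_option autoImplicit false

noncomputable section

namespace Pool.Agent.W2helper63.LL

open IsDedekindDomain Polynomial Matrix WithZero
open scoped Classical

/-! ## The trivial representation -/

theorem irred_one (G : Type) [Group G] : Irred (1 : Representation ℂ G ℂ) := by
  refine ⟨inferInstance, fun W _ => ?_⟩
  exact eq_bot_or_eq_top W

theorem smooth_one (G : Type) [Group G] [TopologicalSpace G] :
    Smooth (1 : Representation ℂ G ℂ) :=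
  fun _ => ⟨⊤, isOpen_univ, fun _ _ => rfl⟩

/-- the trivial representation -/
def trivR (G : Type) [Group G] [TopologicalSpace G] : Irr G where
  V := ℂ
  ρ := 1
  smooth := smooth_one G
  irred := irred_one G

theorem triv_isobaric : Isobaric (trivR GA) := by
  right
  refine ⟨h1, h1, ?_, ?_⟩
  · simp [h1]
  · refine ⟨{ toFun := fun c _ => c, map_add' := fun _ _ => rfl, map_smul' := fun _ _ => rfl },
      ?_, ?_, ?_⟩
    · intro a b h
      exact congrFun h 1
    · intro x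
      refine ⟨⟨⊤, isOpen_univ, fun _ _ _ => rfl⟩, fun a y d g => ?_⟩
      have e : ∀ c : ℂ, c = ((1 : ℂˣ) : ℂ) * ((1 : ℂˣ) : ℂ) * c := fun c => by simp
      exact e x
    · intro g x
      rfl

theorem triv_compInf : CompInf (trivR GA) (trivR (GL (Fin 2) Kinf)) := by
  refine ⟨(LinearMap.id : ℂ →ₗ[ℂ] ℂ), ?_, fun g x => rfl⟩
  intro h
  exact (one_ne_zero : (1 : ℂ) ≠ 0) (LinearMap.congr_fun h (1 : ℂ))

theorem exists_dual {V : Type} [AddCommGroup V] [Module ℂ V] [Nontrivial V] :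
    ∃ j : V →ₗ[ℂ] ℂ, j ≠ 0 := by
  obtain ⟨x, hx⟩ := exists_ne (0 : V)
  by_contra h
  push Not at h
  exact hx ((Module.forall_dual_apply_eq_zero_iff ℂ x).1 fun f => by rw [h f]; rfl)

section model

variable (mod : phi0 ∈ PS h1 h1 ∧ (∀ g : GA, g.2 = 1 → rt g phi0 = phi0) ∧ phi0 ∉ consts ∧
  (∀ i : GL (Fin 2) Kinf, Iw i → rt (ri i) phi0 = phi0) ∧
  (rt (ri (ww pinf)) phi0 + phi0 ∈ consts) ∧
  (phi0 + rt (ri sw) phi0 + rt (ri (nu 1 * sw)) phi0 ∈ consts) ∧
  (∀ z : Kinfˣ, rt (ri (bor z 0 z)) phi0 = phi0))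
  (kl : S_KL) (fri : S_FRI) (op : S_OPEN) (g1 : S_GEN1)

theorem sigmaA_triv_fin (emb : S_EMB) (v : Pl) (τ : Irr (GL (Fin 2) (Kv v)))
    (h : CompFin v (sigmaA mod kl fri op g1) τ) : CompFin v (trivR GA) τ := by
  obtain ⟨j, hj, h⟩ := h
  have hact : ∀ (g : GL (Fin 2) (Kv v)) (x : τ.V), j (τ.ρ g x) = j x := by
    intro g x
    obtain ⟨a, ha, hb, rfl⟩ := emb v g
    rw [h a ha hb x]
    show (sigma mod kl fri op g1).ρ a.2 (j x) = j x
    rw [ha, map_one]; rfl
  have hker : LinearMap.ker j = ⊥ := by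
    rcases τ.irred.2 (LinearMap.ker j) (fun g v hv => by
      rw [LinearMap.mem_ker] at hv ⊢; rw [hact, hv]) with h | h
    · exact h
    · exact absurd (LinearMap.ker_eq_top.1 h) hj
  have htriv : ∀ (g : GL (Fin 2) (Kv v)) (x : τ.V), τ.ρ g x = x := by
    intro g x
    exact LinearMap.ker_eq_bot.1 hker (hact g x)
  have := τ.irred.1
  obtain ⟨j', hj'⟩ := exists_dual (V := τ.V)
  refine ⟨j', hj', fun g _ _ x => ?_⟩
  rw [htriv]; rfl

theorem sigmaA_not_unram : ¬ UnramInf (sigmaA mod kl fri op g1) := by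
  rintro ⟨x, hx, h⟩
  apply hx
  have := (kl Kinf pinf fri Q (resInf rq) u1 (u1_st mod)).2 x.1 x.2 (fun g hg => by
    have := h g hg
    exact congrArg Subtype.val this)
  exact Subtype.ext this

theorem sigmaA_lift (emb : S_EMB) : IsLifting (sigmaA mod kl fri op g1) (trivR GA) :=
  ⟨triv_isobaric, fun v _ τ h => sigmaA_triv_fin mod kl fri op g1 emb v τ h,
    fun h => absurd h (sigmaA_not_unram mod kl fri op g1)⟩

theorem sigmaA_compInf : CompInf (sigmaA mod kl fri op g1) (sigma mod kl fri op g1) := by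
  refine ⟨(LinearMap.id : (sigma mod kl fri op g1).V →ₗ[ℂ] (sigma mod kl fri op g1).V), ?_,
    fun g x => rfl⟩
  intro h
  have := LinearMap.congr_fun h (⟨u1, self_mem_gen _ _⟩ : gen (resInf rq) u1)
  exact u1_ne mod (congrArg Subtype.val this)

theorem sigma_ne_triv : ¬ Iso (sigma mod kl fri op g1) (trivR (GL (Fin 2) Kinf)) := by
  rintro ⟨e, he⟩
  have hact : ∀ (g : GL (Fin 2) Kinf) (x : (sigma mod kl fri op g1).V),
      (sigma mod kl fri op g1).ρ g x = x := by
    intro g x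
    apply e.injective
    rw [he]; rfl
  let x : (sigma mod kl fri op g1).V := (⟨u1, self_mem_gen _ _⟩ : gen (resInf rq) u1)
  have h : ∀ g, resInf rq g u1 = u1 := fun g => congrArg Subtype.val (hact g x)
  have := (u1_st mod).rel
  rw [h, h] at this
  have h3 : (3 : ℂ) • u1 = 0 := by
    rw [← this]; module
  rw [smul_eq_zero] at h3
  rcases h3 with h3 | h3
  · norm_num at h3
  · exact u1_ne mod h3

end model

/-! ## The cuspidal representation -/

theorem exists_cusp (fri : S_FRI) (frv : S_FRV) (dd : S_DD) (triv : S_TRIV)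
    (fex : S_FEX) (cn : S_CN) (inv : S_INV) (ct : S_CT) (val : S_VAL) (rel : S_REL)
    (op : S_OPEN) (g1 : S_GEN1) (g2 : S_GEN2) :
    ∃ (π : Irr GA) (u : π.V), Cuspidal π ∧ u ≠ 0 ∧ StVec (resInf π.ρ) pinf u := by
  obtain ⟨f, hf⟩ := fex dd triv frv
  obtain ⟨hleft, hcen, hright⟩ := inv dd frv cn f hf
  set F : GA → ℂ := fun g => f g - f (g * ri (ww pinf)) with hF
  obtain ⟨r1, r2, r3, r4, r5⟩ := rel dd frv fri inv val cn f hf F (fun g => rfl)
  have hfs : RSmooth f := by
    obtain ⟨H, hH, h⟩ := op.1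
    refine ⟨H, hH, fun g u hu => ?_⟩
    obtain ⟨h1, h2⟩ := h u hu
    rw [hright g u h1, h2, one_mul]
  have hcusp : ∀ x : GA, rt x f ∈ CuspForms 1 := by
    intro x
    refine ⟨fun γ g => ?_, hfs.rt x, fun z g => ?_, fun g => ?_⟩
    · show f (dg γ * g * x) = f (g * x)
      rw [mul_assoc, hleft]
    · show f (borA z 0 z * g * x) = _ * f (g * x)
      rw [mul_assoc, hcen]; simp
    · obtain ⟨y, hy⟩ := ct frv f hright (g * x)
      refine ⟨{0, y}, by simp, fun a => ?_⟩
      have := hy a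
      simp only [Multiset.insert_eq_cons, Multiset.map_cons, Multiset.map_singleton,
        Multiset.sum_cons, Multiset.sum_singleton, add_zero]
      show f (borA 1 a 1 * g * x) + f (borA 1 (a + y) 1 * g * x) = 0
      rw [mul_assoc, mul_assoc, this]; ring
  have hFc : ∀ x : GA, rt x F ∈ CuspForms 1 := by
    intro x
    have : rt x F = rt x f - rt (x * ri (ww pinf)) f := by
      ext g
      show f (g * x) - f (g * x * ri (ww pinf)) = f (g * x) - f (g * (x * ri (ww pinf)))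
      rw [mul_assoc g x]
    rw [this]
    exact Submodule.sub_mem _ (hcusp _) (hcusp _)
  have hF0 : F ≠ 0 := by
    intro h
    rw [h] at r5
    simp at r5
  have hFs : RSmooth F := by
    have := (hFc 1).2.1
    simpa using this
  obtain ⟨H, hH, hHF⟩ := hFs
  obtain ⟨π, q, hqs, hq, hqu⟩ := exists_quot rt F g2 hF0
    (g1 GA (GA → ℂ) rt F ⟨H, hH, fun g hg => funext fun x => hHF x g hg⟩)
  have hgen : gen rt F ≤ CuspForms 1 := by
    unfold gen
    rw [Submodule.span_le]
    rintro _ ⟨x, rfl⟩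
    exact hFc x
  refine ⟨π, q ⟨F, self_mem_gen _ _⟩, ⟨1, gen rt F, q, hgen, gen_stable _ _, hqs, ?_⟩, hqu, ?_⟩
  · intro g φ ψ h
    exact hq g φ ψ h
  · have act : ∀ g : GA, π.ρ g (q ⟨F, self_mem_gen _ _⟩) = q ⟨rt g F, mem_gen _ _ g⟩ := by
      intro g
      exact (hq g _ _ rfl).symm
    refine ⟨fun g hg => ?_, ?_, ?_, fun z => ?_⟩
    · rw [resInf_apply, act]
      congr 1
      exact Subtype.ext (funext fun x => r1 x g hg)
    · rw [resInf_apply, act, ← map_neg]
      congr 1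
      exact Subtype.ext (funext fun x => r2 x)
    · rw [resInf_apply, resInf_apply, act, act, ← map_add, ← map_add]
      have : (⟨F, self_mem_gen _ _⟩ + ⟨rt (ri sw) F, mem_gen _ _ _⟩ +
        ⟨rt (ri (nu 1 * sw)) F, mem_gen _ _ _⟩ : gen rt F) = 0 :=
        Subtype.ext (funext fun x => r3 x)
      rw [this, map_zero]
    · rw [resInf_apply, act]
      congr 1
      exact Subtype.ext (funext fun x => r4 x z)

theorem isLifting_self (π : Irr GA) (h : Cuspidal π) : IsLifting π π :=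
  ⟨Or.inl h, fun _ _ _ h => h, fun _ _ h => h⟩

/-- assembly -/
theorem fin (kl : S_KL) (fri : S_FRI) (frv : S_FRV) (dd : S_DD) (triv : S_TRIV)
    (fex : S_FEX) (cn : S_CN) (inv : S_INV) (ct : S_CT) (val : S_VAL) (rel : S_REL)
    (op : S_OPEN) (g1 : S_GEN1) (g2 : S_GEN2) (g3 : S_GEN3) (md : S_MOD) (emb : S_EMB) :
    Main := by
  have mod := md fri op
  rintro ⟨l, hl⟩
  obtain ⟨π, u, hπ, hu, hst⟩ := exists_cusp fri frv dd triv fex cn inv ct val rel op g1 g2
  have e1 := hl (sigmaA mod kl fri op g1) (trivR GA) (sigmaA_auto mod kl fri op g1)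
    (sigmaA_lift mod kl fri op g1 emb) (sigma mod kl fri op g1) (trivR _)
    (sigmaA_compInf mod kl fri op g1) triv_compInf
  have hcomp : CompInf π (sigma mod kl fri op g1) := by
    obtain ⟨j, hj, h⟩ := g3 kl Kinf pinf fri Q π.V (resInf rq) (resInf π.ρ) u1 u (u1_st mod) hst
      (u1_ne mod) hu
    exact ⟨j, hj, fun g x => h g x _ rfl⟩
  have e2 := hl π π (Or.inl hπ) (isLifting_self π hπ) (sigma mod kl fri op g1)
    (sigma mod kl fri op g1) hcomp hcomp
  apply sigma_ne_triv mod kl fri op g1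
  obtain ⟨a, ha⟩ := e1
  obtain ⟨b, hb⟩ := e2
  refine ⟨b.trans a.symm, fun g x => ?_⟩
  simp only [LinearEquiv.trans_apply]
  rw [LinearEquiv.symm_apply_eq, ha, hb]
  simp

end Pool.Agent.W2helper63.LL
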