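import Pool.Agent.W2helper63.LL.Fin3
import Pool.Agent.W2helper63.LL.BJ

set_option autoImplicit false

noncomputable section

namespace Pool.Agent.W2helper63.LL

open IsDedekindDomain Polynomial Matrix WithZero
open scoped Classical

/-- The final statement: Q1 fails for `F = F₂((1/T))`, `𝐆 = GL₂`, `ρ` standard; automorphic
representations are the irreducible subquotients of the space of automorphic forms. -/
def Main2 : Prop :=
  ¬ ∃ l : Irr (GL (Fin 2) Kinf) → Irr (GL (Fin 2) Kinf),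
    ∀ π P : Irr GA, AutRep π → AutRep P → IsLifting π P →
      ∀ σ τ : Irr (GL (Fin 2) Kinf), CompInf π σ → CompInf P τ → Iso τ (l σ)

section fin4

theorem rt_comm (x : GL (Fin 2) Af) (h : GL (Fin 2) Kinf) :
    (ri h : GA) * (x, 1) = (x, 1) * ri h := by
  ext1 <;> simp [ri]

theorem stVec_comm {F : GA → ℂ} (hF : StVec (resInf (rt : Representation ℂ GA (GA → ℂ))) pinf F)
    (x : GL (Fin 2) Af) :
    StVec (resInf (rt : Representation ℂ GA (GA → ℂ))) pinf (rt (x, 1) F) := by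
  have hc : ∀ h : GL (Fin 2) Kinf, resInf rt h (rt (x, 1) F) = rt (x, 1) (resInf rt h F) := by
    intro h
    rw [resInf_apply]
    have h1 : rt (ri h) (rt (x, 1) F) = rt (ri h * (x, 1)) F := by rw [map_mul]; rfl
    have h2 : rt ((x, 1) : GA) (rt (ri h) F) = rt ((x, 1) * ri h) F := by rw [map_mul]; rfl
    rw [h1, h2, rt_comm]
  refine ⟨fun g hg => ?_, ?_, ?_, fun z => ?_⟩
  · rw [hc, hF.iw g hg]
  · rw [hc, hF.w, map_neg]
  · rw [hc, hc, ← map_add, ← map_add, hF.rel, map_zero]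
  · rw [hc, hF.cen]

theorem gen_autForm (adm : S_ADM) (fri : S_FRI) {F : GA → ℂ}
    (hF : StVec (resInf (rt : Representation ℂ GA (GA → ℂ))) pinf F)
    (hl : ∀ γ g, F (dg γ * g) = F g) (hs : RSmooth F) (φ : GA → ℂ) (hφ : φ ∈ gen rt F) :
    AutForm φ := by
  -- smooth, left invariant
  have hls : (∀ γ g, φ (dg γ * g) = φ g) ∧ RSmooth φ := by
    unfold gen at hφ
    induction hφ using Submodule.span_induction with
    | mem x hx =>
      obtain ⟨h, rfl⟩ := hx
      refine ⟨fun γ g => ?_, hs.rt h⟩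
      show F (dg γ * g * h) = F (g * h)
      rw [mul_assoc, hl]
    | zero => exact ⟨fun _ _ => rfl, ⟨⊤, isOpen_univ, fun _ _ _ => rfl⟩⟩
    | add x y _ _ hx hy =>
      obtain ⟨h1, ⟨H, hH, h2⟩⟩ := hx
      obtain ⟨k1, ⟨H', hH', k2⟩⟩ := hy
      refine ⟨fun γ g => by simp [h1, k1], ⟨H ⊓ H', hH.inter hH', fun g u hu => ?_⟩⟩
      simp [h2 g u hu.1, k2 g u hu.2]
    | smul c x _ hx =>
      obtain ⟨h1, ⟨H, hH, h2⟩⟩ := hx
      exact ⟨fun γ g => by simp [h1], ⟨H, hH, fun g u hu => by simp [h2 g u hu]⟩⟩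
  -- a finite set of Steinberg vectors
  have hfin : ∃ s : Finset (GL (Fin 2) Af),
      φ ∈ ⨆ i ∈ s, gen (resInf rt) (rt ((i, 1) : GA) F) := by
    clear hls
    unfold gen at hφ
    induction hφ using Submodule.span_induction with
    | mem x hx =>
      obtain ⟨h, rfl⟩ := hx
      refine ⟨{h.1}, ?_⟩
      simp only [Finset.mem_singleton, iSup_iSup_eq_left]
      have : rt h F = resInf rt h.2 (rt ((h.1, 1) : GA) F) := by
        rw [resInf_apply]
        have h1 : rt (ri h.2) (rt ((h.1, 1) : GA) F) = rt (ri h.2 * (h.1, 1)) F := by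
          rw [map_mul]; rfl
        rw [h1]
        congr 2
        ext1 <;> simp [ri]
      simp only [this]
      exact mem_gen _ _ _
    | zero => exact ⟨∅, Submodule.zero_mem _⟩
    | add x y _ _ hx hy =>
      obtain ⟨s, hs⟩ := hx
      obtain ⟨t, ht⟩ := hy
      refine ⟨s ∪ t, Submodule.add_mem _ ?_ ?_⟩
      · exact (iSup₂_le fun i hi => le_iSup₂_of_le i (Finset.mem_union_left t hi) le_rfl :
          (⨆ i ∈ s, gen (resInf rt) (rt ((i, 1) : GA) F)) ≤ _) hs
      · exact (iSup₂_le fun i hi => le_iSup₂_of_le i (Finset.mem_union_right s hi) le_rfl :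
          (⨆ i ∈ t, gen (resInf rt) (rt ((i, 1) : GA) F)) ≤ _) ht
    | smul c x _ hx =>
      obtain ⟨s, hs⟩ := hx
      exact ⟨s, Submodule.smul_mem _ _ hs⟩
  obtain ⟨s, hs'⟩ := hfin
  refine ⟨hls.1, hls.2, fun H hH => ?_⟩
  obtain ⟨B, hB⟩ := adm Kinf pinf fri (GA → ℂ) (resInf rt) _ s (fun i => rt ((i, 1) : GA) F)
    (fun i _ => stVec_comm hF i) H hH
  refine ⟨B, fun ψ hψ hfix => hB ψ ?_ hfix⟩
  refine gen_le (resInf rt) φ _ ?_ hs' hψ
  intro g v hv
  have hmap : (⨆ i ∈ s, gen (resInf rt) (rt ((i, 1) : GA) F)).map (resInf rt g) ≤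
      ⨆ i ∈ s, gen (resInf rt) (rt ((i, 1) : GA) F) := by
    simp only [Submodule.map_iSup]
    refine iSup₂_le fun i hi => le_iSup₂_of_le i hi ?_
    rintro _ ⟨x, hx, rfl⟩
    exact gen_stable _ _ g x hx
  exact hmap ⟨v, hv, rfl⟩

theorem exists_cusp2 (fri : S_FRI) (frv : S_FRV) (dd : S_DD) (triv : S_TRIV)
    (fex : S_FEX) (cn : S_CN) (inv : S_INV) (ct : S_CT) (val : S_VAL) (rel : S_REL)
    (op : S_OPEN) (g1 : S_GEN1) (g2 : S_GEN2) (adm : S_ADM) :
    ∃ (π : Irr GA) (u : π.V), Cuspidal π ∧ AutRep π ∧ u ≠ 0 ∧ StVec (resInf π.ρ) pinf u := by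
  obtain ⟨f, hf⟩ := fex dd triv frv
  obtain ⟨hleft, hcen, hright⟩ := inv dd frv cn f hf
  set F : GA → ℂ := fun g => f g - f (g * ri (ww pinf)) with hF
  obtain ⟨r1, r2, r3, r4, r5⟩ := rel dd frv fri inv val cn f hf F (fun g => rfl)
  have hfs : RSmooth f := by
    obtain ⟨H, hH, h⟩ := op.1
    refine ⟨H, hH, fun g u hu => ?_⟩
    obtain ⟨h1, h2⟩ := h u hu
    rw [hright g u h1, h2, one_mul]
  have hcusp : ∀ x : GA, rt x f ∈ CuspForms 1 := by
    intro x
    refine ⟨fun γ g => ?_, hfs.rt x, fun z g => ?_, fun g => ?_⟩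
    · show f (dg γ * g * x) = f (g * x)
      rw [mul_assoc, hleft]
    · show f (borA z 0 z * g * x) = _ * f (g * x)
      rw [mul_assoc, hcen]; simp
    · obtain ⟨y, hy⟩ := ct frv f hright (g * x)
      refine ⟨{0, y}, by simp, fun a => ?_⟩
      have := hy a
      simp only [Multiset.insert_eq_cons, Multiset.map_cons, Multiset.map_singleton,
        Multiset.sum_cons, Multiset.sum_singleton, add_zero]
      show f (borA 1 a 1 * g * x) + f (borA 1 (a + y) 1 * g * x) = 0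
      rw [mul_assoc, mul_assoc, this]; ring
  have hFc : ∀ x : GA, rt x F ∈ CuspForms 1 := by
    intro x
    have : rt x F = rt x f - rt (x * ri (ww pinf)) f := by
      ext g
      show f (g * x) - f (g * x * ri (ww pinf)) = f (g * x) - f (g * (x * ri (ww pinf)))
      rw [mul_assoc g x]
    rw [this]
    exact Submodule.sub_mem _ (hcusp _) (hcusp _)
  have hF0 : F ≠ 0 := by
    intro h
    rw [h] at r5
    simp at r5
  have hFs : RSmooth F := by
    have := (hFc 1).2.1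
    simpa using this
  have hFst : StVec (resInf (rt : Representation ℂ GA (GA → ℂ))) pinf F :=
    ⟨fun g hg => funext fun x => r1 x g hg, funext fun x => r2 x, funext fun x => r3 x,
      fun z => funext fun x => r4 x z⟩
  have hFl : ∀ γ g, F (dg γ * g) = F g := by
    have := (hFc 1).1
    simpa using this
  obtain ⟨H, hH, hHF⟩ := hFs
  obtain ⟨π, q, hqs, hq, hqu⟩ := exists_quot rt F g2 hF0
    (g1 GA (GA → ℂ) rt F ⟨H, hH, fun g hg => funext fun x => hHF x g hg⟩)
  have hgen : gen rt F ≤ CuspForms 1 := by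
    unfold gen
    rw [Submodule.span_le]
    rintro _ ⟨x, rfl⟩
    exact hFc x
  have heq : ∀ (g : GA) (φ ψ : gen rt F), (ψ : GA → ℂ) = rt g φ → q ψ = π.ρ g (q φ) :=
    fun g φ ψ h => hq g φ ψ h
  refine ⟨π, q ⟨F, self_mem_gen _ _⟩, ⟨1, gen rt F, q, hgen, gen_stable _ _, hqs, heq⟩,
    ⟨gen rt F, q, fun φ hφ => gen_autForm adm fri hFst hFl ⟨H, hH, hHF⟩ φ hφ, gen_stable _ _, hqs,
      heq⟩, hqu, ?_⟩
  have act : ∀ g : GA, π.ρ g (q ⟨F, self_mem_gen _ _⟩) = q ⟨rt g F, mem_gen _ _ g⟩ := by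
    intro g
    exact (hq g _ _ rfl).symm
  refine ⟨fun g hg => ?_, ?_, ?_, fun z => ?_⟩
  · rw [resInf_apply, act]
    congr 1
    exact Subtype.ext (funext fun x => r1 x g hg)
  · rw [resInf_apply, act, ← map_neg]
    congr 1
    exact Subtype.ext (funext fun x => r2 x)
  · rw [resInf_apply, resInf_apply, act, act, ← map_add, ← map_add]
    have : (⟨F, self_mem_gen _ _⟩ + ⟨rt (ri sw) F, mem_gen _ _ _⟩ +
      ⟨rt (ri (nu 1 * sw)) F, mem_gen _ _ _⟩ : gen rt F) = 0 :=
      Subtype.ext (funext fun x => r3 x)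
    rw [this, map_zero]
  · rw [resInf_apply, act]
    congr 1
    exact Subtype.ext (funext fun x => r4 x z)

theorem const_mem (c : ℂ) : (fun _ : GA => c) ∈ consts := by
  unfold consts
  rw [Submodule.mem_span_singleton]
  exact ⟨c, by ext; simp⟩

/-- the trivial representation is automorphic -/
theorem triv_autRep : AutRep (trivR GA) := by
  refine ⟨consts, ?_, ?_, consts_stable, ?_, ?_⟩
  · exact
    { toFun := fun φ => (φ : GA → ℂ) 1
      map_add' := fun _ _ => rfl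
      map_smul' := fun _ _ => rfl }
  · intro φ hφ
    unfold consts at hφ
    rw [Submodule.mem_span_singleton] at hφ
    obtain ⟨c, rfl⟩ := hφ
    refine ⟨fun _ _ => rfl, ⟨⊤, isOpen_univ, fun _ _ _ => rfl⟩, fun H _ => ⟨{fun _ => 1}, ?_⟩⟩
    intro ψ hψ _
    have : gen (resInf rt) (c • fun _ : GA => (1 : ℂ)) ≤ consts := by
      refine gen_le _ _ _ (fun g v hv => consts_stable _ v hv) ?_
      exact Submodule.smul_mem _ _ (Submodule.subset_span rfl)
    simpa [consts] using this hψ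
  · intro c
    exact ⟨⟨fun _ => c, const_mem c⟩, rfl⟩
  · rintro g ⟨φ, hφ⟩ ⟨ψ, hψ⟩ h
    unfold consts at hφ
    rw [Submodule.mem_span_singleton] at hφ
    obtain ⟨c, rfl⟩ := hφ
    simp only at h
    subst h
    rfl

/-- assembly, stage 2 -/
theorem fin2 (kl : S_KL) (fri : S_FRI) (frv : S_FRV) (dd : S_DD) (triv : S_TRIV)
    (fex : S_FEX) (cn : S_CN) (inv : S_INV) (ct : S_CT) (val : S_VAL) (rel : S_REL)
    (op : S_OPEN) (g1 : S_GEN1) (g2 : S_GEN2) (g3 : S_GEN3) (md : S_MOD) (emb : S_EMB)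
    (bj : S_BJ) (adm : S_ADM) :
    Main2 := by
  have mod := md fri op
  rintro ⟨l, hl⟩
  obtain ⟨π, u, hπ, hπa, hu, hst⟩ :=
    exists_cusp2 fri frv dd triv fex cn inv ct val rel op g1 g2 adm
  have hA : AutRep (sigmaA mod kl fri op g1) := by
    obtain ⟨W, q, h1, h2, h3, h4⟩ := bj kl fri op md
    refine ⟨W, q.codRestrict (gen (resInf rq) u1) (fun w => ?_), h1, h2, ?_, ?_⟩
    · rw [← h3]; exact ⟨w, rfl⟩
    · rintro ⟨y, hy⟩
      rw [← h3] at hy
      obtain ⟨w, rfl⟩ := hy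
      exact ⟨w, rfl⟩
    · intro g φ ψ hψ
      apply Subtype.ext
      show q ψ = resInf rq g.2 (q φ)
      rw [h4 g φ ψ hψ, rq_eq mod g _ (by rw [← h3]; exact ⟨φ, rfl⟩)]
  have e1 := hl (sigmaA mod kl fri op g1) (trivR GA) hA triv_autRep
    (sigmaA_lift mod kl fri op g1 emb) (sigma mod kl fri op g1) (trivR _)
    (sigmaA_compInf mod kl fri op g1) triv_compInf
  have hcomp : CompInf π (sigma mod kl fri op g1) := by
    obtain ⟨j, hj, h⟩ := g3 kl Kinf pinf fri Q π.V (resInf rq) (resInf π.ρ) u1 u (u1_st mod) hst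
      (u1_ne mod) hu
    exact ⟨j, hj, fun g x => h g x _ rfl⟩
  have e2 := hl π π hπa hπa (isLifting_self π hπ) (sigma mod kl fri op g1)
    (sigma mod kl fri op g1) hcomp hcomp
  apply sigma_ne_triv mod kl fri op g1
  obtain ⟨a, ha⟩ := e1
  obtain ⟨b, hb⟩ := e2
  refine ⟨b.trans a.symm, fun g x => ?_⟩
  simp only [LinearEquiv.trans_apply]
  rw [LinearEquiv.symm_apply_eq, ha, hb]
  simp

end fin4

end Pool.Agent.W2helper63.LL
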