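import Pool.Agent.W2helper63.LL.Defs

/-!
# Pieces of project LL (MP_5ae62c_nt)
-/

set_option autoImplicit false

noncomputable section

namespace Pool.Agent.W2helper63.LL

open IsDedekindDomain Polynomial Matrix WithZero
open scoped Classical

/-! ## Local fields with residue field `F₂` -/

section loc

variable {L : Type} [Field L]

def nu (x : L) : GL (Fin 2) L := bor 1 x 1

def nl (x : L) : GL (Fin 2) L where
  val := !![1, 0; x, 1]
  inv := !![1, 0; -x, 1]
  val_inv := by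
    ext i j
    fin_cases i <;> fin_cases j <;> simp [Matrix.mul_apply, Fin.sum_univ_two]
  inv_val := by
    ext i j
    fin_cases i <;> fin_cases j <;> simp [Matrix.mul_apply, Fin.sum_univ_two]

/-- `s = (0 1; 1 0)` -/
def sw : GL (Fin 2) L where
  val := !![0, 1; 1, 0]
  inv := !![0, 1; 1, 0]
  val_inv := by
    ext i j
    fin_cases i <;> fin_cases j <;> simp [Matrix.mul_apply, Fin.sum_univ_two]
  inv_val := by
    ext i j
    fin_cases i <;> fin_cases j <;> simp [Matrix.mul_apply, Fin.sum_univ_two]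

/-- `w = (0 1; ϖ 0)` -/
def ww (p : Lˣ) : GL (Fin 2) L where
  val := !![0, 1; (p : L), 0]
  inv := !![0, ((p⁻¹ : Lˣ) : L); 1, 0]
  val_inv := by
    ext i j
    fin_cases i <;> fin_cases j <;> simp [Matrix.mul_apply, Fin.sum_univ_two]
  inv_val := by
    ext i j
    fin_cases i <;> fin_cases j <;> simp [Matrix.mul_apply, Fin.sum_univ_two]

/-- `t = (ϖ 0; 0 1)` -/
def tt (p : Lˣ) : GL (Fin 2) L := bor p 0 1

variable [Valued L (WithZero (Multiplicative ℤ))]

/-- `L` has characteristic two, residue field with two elements and `p` is a uniformizer -/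
structure Res2 (L : Type) [Field L] [Valued L (WithZero (Multiplicative ℤ))] (p : Lˣ) : Prop where
  val : Valued.v (p : L) = exp (-1 : ℤ)
  two : ∀ x y : L, Valued.v x = 1 → Valued.v y = 1 → Valued.v (x + y) < 1
  char : (2 : L) = 0

/-- the Iwahori subgroup (upper triangular mod the maximal ideal) -/
def Iw (g : GL (Fin 2) L) : Prop := Integral g ∧ Valued.v (g.1 1 0) < 1

/-- `u` is a vector on which the Iwahori-Hecke algebra acts by the Steinberg character -/
structure StVec {V : Type} [AddCommGroup V] [Module ℂ V] (ρ : Representation ℂ (GL (Fin 2) L) V)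
    (p : Lˣ) (u : V) : Prop where
  iw : ∀ g : GL (Fin 2) L, Iw g → ρ g u = u
  w : ρ (ww p) u = -u
  rel : u + ρ sw u + ρ (nu 1 * sw) u = 0
  cen : ∀ z : Lˣ, ρ (bor z 0 z) u = u

/-- the span of the translates of `u` -/
def gen {G V : Type} [Group G] [AddCommGroup V] [Module ℂ V] (ρ : Representation ℂ G V)
    (u : V) : Submodule ℂ V := Submodule.span ℂ (Set.range fun g => ρ g u)

/-- `U a n = ρ(nu a * t^n) u` -/
def U {V : Type} [AddCommGroup V] [Module ℂ V] (ρ : Representation ℂ (GL (Fin 2) L) V)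
    (p : Lˣ) (u : V) (a : L) (n : ℤ) : V := ρ (nu a * tt p ^ n) u

/-- the weights -/
def lam (a : L) : ℂ := if Valued.v a ≤ 1 then 1 / 2 else -((4 : ℂ) ^ (-(log (Valued.v a))))

end loc

/-- PIECE KLA. -/
def S_KLA : Prop :=
  ∀ (L : Type) [Field L] [Valued L (WithZero (Multiplicative ℤ))] (p : Lˣ), Res2 L p →
  ∀ (V : Type) [AddCommGroup V] [Module ℂ V] (ρ : Representation ℂ (GL (Fin 2) L) V) (u : V),
    StVec ρ p u →
    (∀ (a b : L) (n : ℤ), Valued.v (a - b) ≤ exp (-n) → U ρ p u a n = U ρ p u b n) ∧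
    (∀ (a : L) (n : ℤ), U ρ p u a n = U ρ p u a (n + 1) + U ρ p u (a + (p : L) ^ n) (n + 1)) ∧
    (∀ y ∈ gen ρ u, ∃ N : ℕ, ∀ n : ℕ, N ≤ n → ∃ c : L →₀ ℂ,
      y = c.sum fun a z => z • U ρ p u a n)

/-- PIECE KLB. Averaging over (a finite subset of) the Iwahori subgroup. -/
def S_KLB : Prop :=
  ∀ (L : Type) [Field L] [Valued L (WithZero (Multiplicative ℤ))] (p : Lˣ), Res2 L p →
  ∀ (V : Type) [AddCommGroup V] [Module ℂ V] (ρ : Representation ℂ (GL (Fin 2) L) V) (u : V),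
    StVec ρ p u →
    (∀ (a b : L) (n : ℤ), Valued.v (a - b) ≤ exp (-n) → U ρ p u a n = U ρ p u b n) →
    (∀ (a : L) (n : ℤ), U ρ p u a n = U ρ p u a (n + 1) + U ρ p u (a + (p : L) ^ n) (n + 1)) →
    ∀ (n : ℕ) (c : L →₀ ℂ), ∃ (H : Multiset (GL (Fin 2) L)) (N : ℕ), H ≠ 0 ∧ N ≠ 0 ∧
      (∀ h ∈ H, Iw h) ∧
      (H.map fun h => ρ h (c.sum fun a z => z • U ρ p u a n)).sum =
        ((N : ℂ) * c.sum fun a z => z * lam a) • u

/-- The key lemma (from KLA and KLB): `gen ρ u` is irreducible and has no nonzero vector fixed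
by `GL₂(O)`. -/
def S_KL : Prop :=
  ∀ (L : Type) [Field L] [Valued L (WithZero (Multiplicative ℤ))] (p : Lˣ), Res2 L p →
  ∀ (V : Type) [AddCommGroup V] [Module ℂ V] (ρ : Representation ℂ (GL (Fin 2) L) V) (u : V),
    StVec ρ p u →
    (∀ W : Submodule ℂ V, Stable ρ W → ∀ y ∈ W, y ∈ gen ρ u → y ≠ 0 → u ∈ W) ∧
    (∀ y ∈ gen ρ u, (∀ g : GL (Fin 2) L, Integral g → ρ g y = y) → y = 0)

/-- PIECE KLC. -/
def S_KLC : Prop := S_KLA → S_KLB → S_KL

/-! ## The places used -/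

/-- the place `T` -/
def v0 : Pl where
  asIdeal := Ideal.span {X}
  isPrime := (Ideal.span_singleton_prime Polynomial.X_ne_zero).2 Polynomial.prime_X
  ne_bot := by simp

/-- the place `T - 1 = T + 1` -/
def v1 : Pl where
  asIdeal := Ideal.span {X - C 1}
  isPrime := (Ideal.span_singleton_prime (Polynomial.X_sub_C_ne_zero 1)).2
    (Polynomial.prime_X_sub_C 1)
  ne_bot := by simpa using Polynomial.X_sub_C_ne_zero (1 : ZMod 2)

/-- `T` as a unit of `Kinf` -/
def Tu : Kinfˣ :=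
  Units.map (algebraMap K Kinf).toMonoidHom (Units.mk0 RatFunc.X RatFunc.X_ne_zero)

/-- the uniformizer `1/T` of `Kinf` -/
def pinf : Kinfˣ := Tu⁻¹

/-- PIECE FRI. -/
def S_FRI : Prop := Res2 Kinf pinf

/-- PIECE FRV. -/
def S_FRV : Prop := ∃ p : (Kv v1)ˣ, Res2 (Kv v1) p

/-! ## The compact open subgroup `D`, its character, the function `f` -/

section sgn

variable {L : Type} [Field L] [Valued L (WithZero (Multiplicative ℤ))]

/-- reduction of integral elements -/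
def rd (x : L) : ZMod 2 := if Valued.v x < 1 then 0 else 1

/-- the sign of an element of `GL₂(F₂) ≅ S₃` -/
def sgnM (M : Matrix (Fin 2) (Fin 2) (ZMod 2)) : ℂ := if M = 1 ∨ M.trace = 1 then 1 else -1

/-- the sign of the reduction of an element of `GL₂(O)` -/
def sgn (g : GL (Fin 2) L) : ℂ := sgnM (g.1.map rd)

end sgn

/-- `k ∈ ∏ GL₂(O_v)`, lower triangular mod `T`, upper triangular at infinity -/
def inD (k : GA) : Prop :=
  (∀ v : Pl, Integral (pr v k)) ∧ Integral k.2 ∧ Valued.v ((pr v0 k).1 0 1) < 1 ∧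
    Valued.v (k.2.1 1 0) < 1

/-- the character of `D`: the sign of the reduction mod `T - 1` -/
def chi (k : GA) : ℂ := sgn (pr v1 k)

/-- PIECE DD: `D` is a group and `χ` a character (with values `±1`). Also multiplicativity of
`sgn` on integral matrices. -/
def S_DD : Prop :=
  (∀ (L : Type) [Field L] [Valued L (WithZero (Multiplicative ℤ))] (p : Lˣ), Res2 L p →
    ∀ g h : GL (Fin 2) L, Integral g → Integral h → Integral (g * h) ∧ Integral g⁻¹ ∧
      sgn (g * h) = sgn g * sgn h) ∧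
  inD 1 ∧ (∀ k l, inD k → inD l → inD (k * l)) ∧ (∀ k, inD k → inD k⁻¹) ∧
    (S_FRV → ∀ k l, inD k → inD l → chi (k * l) = chi k * chi l) ∧ chi 1 = 1

/-- the central element `ϖ` at infinity -/
def zz : GA := (1, bor pinf 0 pinf)

/-- PIECE TRIV: `GL₂(K) · ϖ^ℤ ∩ D = 1`. -/
def S_TRIV : Prop := ∀ (γ : GL (Fin 2) K) (n : ℤ), inD (dg γ * zz ^ n) → γ = 1 ∧ n = 0

/-- `f` is the function supported on `GL₂(K) ϖ^ℤ D` with `f(γ ϖ^n k) = χ(k)` -/
def IsF (f : GA → ℂ) : Prop :=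
  (∀ (γ : GL (Fin 2) K) (n : ℤ) (k : GA), inD k → f (dg γ * zz ^ n * k) = chi k) ∧
    ∀ g : GA, (¬ ∃ (γ : GL (Fin 2) K) (n : ℤ) (k : GA), inD k ∧ g = dg γ * zz ^ n * k) → f g = 0

/-- PIECE FEX. -/
def S_FEX : Prop := S_DD → S_TRIV → S_FRV → ∃ f : GA → ℂ, IsF f

/-- PIECE CN: class number one. -/
def S_CN : Prop := ∀ a : Afˣ, ∃ κ : K, κ ≠ 0 ∧ ∀ v : Pl, Valued.v ((a : Af) v) = v.valuation K κ

/-- PIECE INV: invariance properties of `f`. -/
def S_INV : Prop := S_DD → S_FRV → S_CN → ∀ f : GA → ℂ, IsF f →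
  (∀ γ g, f (dg γ * g) = f g) ∧ (∀ z g, f (borA z 0 z * g) = f g) ∧
    (∀ g k, inD k → f (g * k) = chi k * f g)

/-- PIECE CT: vanishing of the constant term of `f` and of its translates. -/
def S_CT : Prop := S_FRV → ∀ f : GA → ℂ, (∀ g k, inD k → f (g * k) = chi k * f g) →
  ∀ g : GA, ∃ y : Adele, ∀ x : Adele, f (borA 1 (x + y) 1 * g) = -f (borA 1 x 1 * g)

/-- right translation by an element of `GL₂(Kinf)` -/
def ri (h : GL (Fin 2) Kinf) : GA := (1, h)

/-- PIECE VAL: the values of `f` needed. -/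
def S_VAL : Prop := S_DD → S_FRV → S_FRI → ∀ f : GA → ℂ, IsF f →
  f 1 = 1 ∧ f (ri sw) = 0 ∧ f (ri (nu 1 * sw)) = -1 ∧
  f (ri (nu (Tu : Kinf))) = -1 ∧ f (ri ((ww pinf)⁻¹ * sw * ww pinf)) = 0 ∧ f (ri (ww pinf)) = 0

/-- PIECE REL: the relations at infinity for `F(g) = f(g) - f(g w)`. -/
def S_REL : Prop := S_DD → S_FRV → S_FRI → S_INV → S_VAL → S_CN → ∀ f : GA → ℂ, IsF f →
  ∀ F : GA → ℂ, (∀ g, F g = f g - f (g * ri (ww pinf))) →
    (∀ g i, Iw i → F (g * ri i) = F g) ∧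
    (∀ g, F (g * ri (ww pinf)) = -F g) ∧
    (∀ g, F g + F (g * ri sw) + F (g * ri (nu 1 * sw)) = 0) ∧
    (∀ g z, F (g * ri (bor z 0 z)) = F g) ∧ F 1 = 1

/-- PIECE OPEN. -/
def S_OPEN : Prop :=
  (∃ H : Subgroup GA, IsOpen (H : Set GA) ∧ ∀ k ∈ H, inD k ∧ chi k = 1) ∧
  (∃ H : Subgroup (GL (Fin 2) Kinf), IsOpen (H : Set (GL (Fin 2) Kinf)) ∧ ∀ k ∈ H, Iw k)

/-! ## Generalities on representations -/

/-- the representation on a stable subspace -/
def subRep {G V : Type} [Group G] [AddCommGroup V] [Module ℂ V] (ρ : Representation ℂ G V)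
    (W : Submodule ℂ V) (h : Stable ρ W) : Representation ℂ G W where
  toFun g := (ρ g).restrict (h g)
  map_one' := by ext x; simp
  map_mul' a b := by ext x; simp

/-- the representation on the quotient by a stable subspace -/
def quoRep {G V : Type} [Group G] [AddCommGroup V] [Module ℂ V] (ρ : Representation ℂ G V)
    (W : Submodule ℂ V) (h : Stable ρ W) : Representation ℂ G (V ⧸ W) where
  toFun g := W.mapQ W (ρ g) (h g)
  map_one' := by ext x; simp
  map_mul' a b := by ext x; simp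

/-- PIECE GEN1: smoothness. -/
def S_GEN1 : Prop :=
  ∀ (G : Type) [Group G] [TopologicalSpace G] [IsTopologicalGroup G]
    (V : Type) [AddCommGroup V] [Module ℂ V] (ρ : Representation ℂ G V) (u : V),
    (∃ H : Subgroup G, IsOpen (H : Set G) ∧ ∀ g ∈ H, ρ g u = u) →
    ∀ y ∈ gen ρ u, ∃ H : Subgroup G, IsOpen (H : Set G) ∧ ∀ g ∈ H, ρ g y = y

/-- PIECE GEN2: a nonzero cyclic representation has an irreducible quotient. -/
def S_GEN2 : Prop :=
  ∀ (G : Type) [Group G] (V : Type) [AddCommGroup V] [Module ℂ V] (ρ : Representation ℂ G V)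
    (u : V), u ≠ 0 → ∃ M : Submodule ℂ V, Stable ρ M ∧ M ≤ gen ρ u ∧ u ∉ M ∧
      ∀ W : Submodule ℂ V, Stable ρ W → M ≤ W → W ≤ gen ρ u → W = M ∨ u ∈ W

/-- PIECE GEN3: two representations generated by Steinberg vectors are isomorphic. -/
def S_GEN3 : Prop := S_KL →
  ∀ (L : Type) [Field L] [Valued L (WithZero (Multiplicative ℤ))] (p : Lˣ), Res2 L p →
  ∀ (V V' : Type) [AddCommGroup V] [Module ℂ V] [AddCommGroup V'] [Module ℂ V']
    (ρ : Representation ℂ (GL (Fin 2) L) V) (ρ' : Representation ℂ (GL (Fin 2) L) V')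
    (u : V) (u' : V'), StVec ρ p u → StVec ρ' p u' → u ≠ 0 → u' ≠ 0 →
    ∃ j : gen ρ u →ₗ[ℂ] V', j ≠ 0 ∧
      ∀ (g : GL (Fin 2) L) (x y : gen ρ u), (y : V) = ρ g x → j y = ρ' g (j x)

/-! ## The model of the Steinberg representation in functions on `B\G` -/

/-- the function `g ↦ 1` if the bottom row `(c, d)` of the component at infinity has `|c| < |d|`,
and `0` otherwise -/
def phi0 (g : GA) : ℂ := if Valued.v (g.2.1 1 0) < Valued.v (g.2.1 1 1) then 1 else 0

/-- the constant functions -/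
def consts : Submodule ℂ (GA → ℂ) := Submodule.span ℂ {fun _ => (1 : ℂ)}

/-- the trivial Hecke character -/
def h1 : Hecke := ⟨1, ⟨⊤, isOpen_univ, fun _ _ => rfl⟩, fun _ => rfl⟩

/-- PIECE MOD: `phi0` lies in `PS 1 1`, its translates by elements with component `1` at
infinity are trivial, and modulo constants it is a Steinberg vector. -/
def S_MOD : Prop := S_FRI → S_OPEN →
  phi0 ∈ PS h1 h1 ∧ (∀ g : GA, g.2 = 1 → rt g phi0 = phi0) ∧ phi0 ∉ consts ∧
  (∀ i : GL (Fin 2) Kinf, Iw i → rt (ri i) phi0 = phi0) ∧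
  (rt (ri (ww pinf)) phi0 + phi0 ∈ consts) ∧
  (phi0 + rt (ri sw) phi0 + rt (ri (nu 1 * sw)) phi0 ∈ consts) ∧
  (∀ z : Kinfˣ, rt (ri (bor z 0 z)) phi0 = phi0)

end Pool.Agent.W2helper63.LL
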